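import Pool.Agent.Helper4.PC.Base

namespace Pool.Agent.Helper4.PC

open Finset

variable {V C : Type} [Fintype V] [DecidableEq V] [DecidableEq C]

/-- PIECE A1. For a colour `c ∈ L x` put `n c = #{w ∈ N x : φ w = some c}`. These sets are disjoint subsets
of `N x`, so `∑ c ∈ L x, n c ≤ #(N x) ≤ #(L x) - 1`. `Av N L φ x` = colours with `n c = 0`. Let `O` = colours of `L x`
with `n c = 1`; the remaining ones have `n c ≥ 2`, so `#O + 2 (#(L x) - #Av - #O) ≤ #(L x) - 1`, that is
`#O ≥ #(L x) + 1 - 2 #Av`. The filter on the right contains, for every `c ∈ O` with `some c ∉ X`, the unique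
`w ∈ N x` with `φ w = some c` (different `c` give different `w`), so its card is `≥ #O - #X`. -/
theorem once_card (N : V → Finset V) (L : V → Finset C) (φ : V → Option C) (x : V)
    (X : Finset (Option C)) (h : #(N x) + 1 ≤ #(L x)) :
    #(L x) + 1 ≤ #((N x).filter fun w => (∃ a ∈ L x, φ w = some a) ∧
      (∀ w' ∈ N x, φ w' = φ w → w' = w) ∧ φ w ∉ X) + 2 * #(Av N L φ x) + #X := by
  have h1 : ∑ c ∈ L x, #((N x).filter fun w => φ w = some c) ≤ #(N x) := by
    have e : ∑ c ∈ L x, #((N x).filter fun w => φ w = some c)
        = #((L x).biUnion fun c => (N x).filter fun w => φ w = some c) := by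
      rw [card_biUnion]
      intro c _ c' _ hcc
      rw [Function.onFun, Finset.disjoint_left]
      intro w hw hw'
      rw [mem_filter] at hw hw'
      exact hcc (Option.some.inj (hw.2.symm.trans hw'.2))
    rw [e]
    exact card_le_card (biUnion_subset.mpr fun c _ => filter_subset _ _)
  have h2 : 2 * #(L x) ≤ ∑ c ∈ L x, #((N x).filter fun w => φ w = some c)
      + #((L x).filter fun c => #((N x).filter fun w => φ w = some c) = 1)
      + 2 * #(Av N L φ x) := by
    rw [Av, card_filter (fun c => #((N x).filter fun w => φ w = some c) = 1) (L x),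
      card_filter (fun c => ∀ w ∈ N x, φ w ≠ some c) (L x), mul_sum, ← sum_add_distrib,
      ← sum_add_distrib]
    have e : 2 * #(L x) = ∑ _c ∈ L x, 2 := by rw [sum_const, smul_eq_mul, mul_comm]
    rw [e]
    refine sum_le_sum fun c _ => ?_
    by_cases h0 : ∀ w ∈ N x, φ w ≠ some c
    · rw [if_pos h0]; omega
    · rw [if_neg h0]
      push Not at h0
      obtain ⟨w, hw, hwc⟩ := h0
      have hpos : 0 < #((N x).filter fun w => φ w = some c) :=
        card_pos.mpr ⟨w, mem_filter.mpr ⟨hw, hwc⟩⟩
      by_cases h3 : #((N x).filter fun w => φ w = some c) = 1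
      · rw [if_pos h3]; omega
      · rw [if_neg h3]; omega
  have h3 : #((L x).filter fun c => #((N x).filter fun w => φ w = some c) = 1) ≤
      #((N x).filter fun w => (∃ a ∈ L x, φ w = some a) ∧
        (∀ w' ∈ N x, φ w' = φ w → w' = w) ∧ φ w ∉ X) + #X := by
    rw [← card_map (Function.Embedding.some)]
    have hsub : ((L x).filter fun c => #((N x).filter fun w => φ w = some c) = 1).map
        Function.Embedding.some ⊆ (((N x).filter fun w => (∃ a ∈ L x, φ w = some a) ∧
        (∀ w' ∈ N x, φ w' = φ w → w' = w) ∧ φ w ∉ X).image φ) ∪ X := by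
      intro o ho
      obtain ⟨c, hc, rfl⟩ := mem_map.mp ho
      rw [mem_filter] at hc
      rw [mem_union]
      by_cases hX : (Function.Embedding.some c : Option C) ∈ X
      · exact Or.inr hX
      · left
        obtain ⟨w, hw⟩ := card_eq_one.mp hc.2
        have hw1 : w ∈ (N x).filter fun w => φ w = some c := by rw [hw]; exact mem_singleton_self w
        rw [mem_filter] at hw1
        refine mem_image.mpr ⟨w, mem_filter.mpr ⟨hw1.1, ⟨c, hc.1, hw1.2⟩, ?_, ?_⟩, hw1.2⟩
        · intro w' hw' he
          have : w' ∈ (N x).filter fun w => φ w = some c :=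
            mem_filter.mpr ⟨hw', he.trans hw1.2⟩
          rw [hw] at this
          exact mem_singleton.mp this
        · rw [hw1.2]; exact hX
    exact (card_le_card hsub).trans ((card_union_le _ _).trans (Nat.add_le_add_right card_image_le _))
  omega

end Pool.Agent.Helper4.PC
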