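import Pool.Agent.Helper4.PC.Base

namespace Pool.Agent.Helper4.PC

open Finset

variable {V C : Type} [Fintype V] [DecidableEq V] [DecidableEq C]

/-- PIECE A2 (first part). The blank neighbours, and for every colour of `L x` not in `Av` one neighbour with that colour,
are different elements of `N x`. -/
theorem blank_card (N : V → Finset V) (L : V → Finset C) (φ : V → Option C) (x : V) :
    #(Bl N φ x) + #(L x) ≤ #(N x) + #(Av N L φ x) := by
  have h1 : #(L x \ Av N L φ x) ≤ #((N x).filter fun u => φ u ≠ none) := by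
    have h2 : (L x \ Av N L φ x).image some ⊆ ((N x).filter fun u => φ u ≠ none).image φ := by
      intro o ho
      obtain ⟨c, hc, rfl⟩ := mem_image.mp ho
      rw [mem_sdiff, mem_Av, not_and] at hc
      have h3 := hc.2 hc.1
      push Not at h3
      obtain ⟨w, hw, hwc⟩ := h3
      exact mem_image.mpr ⟨w, mem_filter.mpr ⟨hw, by rw [hwc]; simp⟩, hwc⟩
    calc #(L x \ Av N L φ x) = #((L x \ Av N L φ x).image some) :=
          (card_image_of_injective _ (Option.some_injective _)).symm
      _ ≤ _ := card_le_card h2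
      _ ≤ _ := card_image_le
  have h2 : #(Bl N φ x) + #((N x).filter fun u => φ u ≠ none) = #(N x) := by
    unfold Bl
    exact card_filter_add_card_filter_not _
  have h3 : #(L x) ≤ #(L x \ Av N L φ x) + #(Av N L φ x) := by
    have := card_le_card_sdiff_add_card (s := L x) (t := Av N L φ x)
    omega
  omega

/-- PIECE A2 (second part). Let `k'` = number of colours (`≠ none`) on `N v`. Colours used once: `#Uq`; all others are used
at least twice, so `#Uq + 2 (k' - #Uq) ≤ #(N v) - #(Bl)`, i.e. `2 k' + #Bl ≤ #(N v) + #Uq`. -/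
theorem col_card (N : V → Finset V) (φ : V → Option C) (v : V) :
    2 * #(((N v).image φ).erase none) + #(Bl N φ v) ≤ #(N v) + #(Uq N φ v) := by
  set K := ((N v).image φ).erase none with hK
  set A := (N v).filter fun u => φ u ≠ none with hA
  have h1 : #(Bl N φ v) + #A = #(N v) := by
    unfold Bl
    exact card_filter_add_card_filter_not _
  have hmaps : ∀ u ∈ A, φ u ∈ K := by
    intro u hu
    rw [hA, mem_filter] at hu
    exact mem_erase.mpr ⟨hu.2, mem_image_of_mem _ hu.1⟩
  -- number of elements with given colour plus indicator of uniqueness is at least 2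
  have h2 : ∑ k ∈ K, (#(A.filter fun u => φ u = k) + #((Uq N φ v).filter fun u => φ u = k)) =
      #A + #(Uq N φ v) := by
    rw [sum_add_distrib, ← card_eq_sum_card_fiberwise (fun u hu => hmaps u (mem_coe.mp hu)),
      ← card_eq_sum_card_fiberwise (fun u hu => hmaps u ?_)]
    have hu' := mem_coe.mp hu
    unfold Uq at hu'
    rw [mem_filter] at hu'
    exact mem_filter.mpr ⟨hu'.1, hu'.2.1⟩
  have h3 : ∀ k ∈ K, 2 ≤ #(A.filter fun u => φ u = k) + #((Uq N φ v).filter fun u => φ u = k) := by
    intro k hk
    rw [hK, mem_erase, mem_image] at hk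
    obtain ⟨hk0, u, hu, rfl⟩ := hk
    have huA : u ∈ A.filter fun w => φ w = φ u := mem_filter.mpr ⟨mem_filter.mpr ⟨hu, hk0⟩, rfl⟩
    by_cases hq : u ∈ Uq N φ v
    · have h4 : 0 < #(A.filter fun w => φ w = φ u) := card_pos.mpr ⟨u, huA⟩
      have h5 : 0 < #((Uq N φ v).filter fun w => φ w = φ u) :=
        card_pos.mpr ⟨u, mem_filter.mpr ⟨hq, rfl⟩⟩
      omega
    · have h6 : ∃ w ∈ N v, φ w = φ u ∧ w ≠ u := by
        by_contra hcon
        push Not at hcon
        exact hq (mem_filter.mpr ⟨hu, hk0, fun w hw h => hcon w hw h⟩)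
      obtain ⟨w, hw, hwu, hne⟩ := h6
      have h7 : 1 < #(A.filter fun y => φ y = φ u) :=
        one_lt_card.mpr ⟨w, mem_filter.mpr ⟨mem_filter.mpr ⟨hw, by rw [hwu]; exact hk0⟩, hwu⟩,
          u, huA, hne⟩
      omega
  have h4 : #K * 2 ≤ #A + #(Uq N φ v) := by
    rw [← h2]
    calc #K * 2 = ∑ _k ∈ K, 2 := by simp
      _ ≤ _ := sum_le_sum h3
  omega

/-- PIECE A2 (third part). Follows from `col_card`: the image has at most one more element (`none`), and it has it only if
`#(Bl N φ v) ≥ 1`. -/
theorem img_card (N : V → Finset V) (φ : V → Option C) (v : V) :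
    2 * #((N v).image φ) ≤ #(N v) + #(Uq N φ v) + 1 := by
  have h1 := col_card N φ v
  by_cases h : none ∈ (N v).image φ
  · have h2 : #(((N v).image φ).erase none) + 1 = #((N v).image φ) := card_erase_add_one h
    obtain ⟨u, hu, hu'⟩ := mem_image.mp h
    have h3 : 0 < #(Bl N φ v) := card_pos.mpr ⟨u, mem_filter.mpr ⟨hu, hu'⟩⟩
    omega
  · rw [erase_eq_of_notMem h] at h1
    omega

/-- PIECE A2 (fourth part). Partition of `N v`. -/
theorem nu_card (N : V → Finset V) (φ : V → Option C) (v : V) :
    #(Nu N φ v) + #(Uq N φ v) + #(Bl N φ v) = #(N v) := by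
  have h1 : #(Bl N φ v) + #((N v).filter fun u => φ u ≠ none) = #(N v) := by
    unfold Bl
    exact card_filter_add_card_filter_not _
  have h2 : #(Nu N φ v) + #(Uq N φ v) = #((N v).filter fun u => φ u ≠ none) := by
    have h3 : Disjoint (Nu N φ v) (Uq N φ v) := by
      rw [disjoint_left]
      intro u hu hu'
      exact (mem_filter.mp hu).2.2 hu'
    rw [← card_union_of_disjoint h3]
    congr 1
    ext u
    rw [mem_union, mem_filter]
    constructor
    · rintro (h | h)
      · have := mem_filter.mp h
        exact ⟨this.1, this.2.1⟩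
      · have := mem_filter.mp h
        exact ⟨this.1, this.2.1⟩
    · intro h
      by_cases hq : u ∈ Uq N φ v
      · exact Or.inr hq
      · exact Or.inl (mem_filter.mpr ⟨h.1, h.2, hq⟩)
  omega

end Pool.Agent.Helper4.PC
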