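import Pool.Agent.Helper4.PC.Base
import Pool.Agent.Helper4.PC.St.A1
import Pool.Agent.Helper4.PC.St.A2
namespace Pool.Agent.Helper4.PC

open Finset

variable {V C : Type} [Fintype V] [DecidableEq V] [DecidableEq C]

private theorem Av_update_none_eq {N : V → Finset V} {L : V → Finset C} {φ : V → Option C}
    {x w : V} {a : C} (haL : a ∈ L x) (ha : φ w = some a)
    (hu : ∀ w' ∈ N x, φ w' = φ w → w' = w) :
    Av N L (Function.update φ w none) x = insert a (Av N L φ x) := by
  ext c
  rw [mem_insert, mem_Av, mem_Av]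
  constructor
  · rintro ⟨hc, h⟩
    by_cases hca : c = a
    · exact Or.inl hca
    · refine Or.inr ⟨hc, fun w' hw' he => ?_⟩
      by_cases hww : w' = w
      · rw [hww, ha] at he
        exact hca (Option.some.inj he).symm
      · have := h w' hw'
        rw [Function.update_of_ne hww] at this
        exact this he
  · rintro (rfl | ⟨hc, h⟩)
    · refine ⟨haL, fun w' hw' he => ?_⟩
      by_cases hww : w' = w
      · rw [hww, Function.update_self] at he
        exact absurd he (by simp)
      · rw [Function.update_of_ne hww] at he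
        exact hww (hu w' hw' (he.trans ha.symm))
    · refine ⟨hc, fun w' hw' he => ?_⟩
      by_cases hww : w' = w
      · rw [hww, Function.update_self] at he
        exact absurd he (by simp)
      · rw [Function.update_of_ne hww] at he
        exact h w' hw' he

/-- PIECE S1. Use `switch` with `S`, `T` the two filters, `mv φ` = the `w ∈ N x` whose colour is some `a ∈ L x` and occurs
exactly once on `N x` (the filter of `once_card` with `X = ∅`; card `≥ #(L x) + 1 - 2 l`), `f φ w = update φ w none`,
label `g φ w = (w, φ w)`, labels `lb ψ = (Bl N ψ x) ×ˢ (Av N L ψ x).image some`.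
`f φ w ∈ F` by `Om_update_none` and closedness (`w ∈ B`). `Av` of `update φ w none` at `x` is `insert a (Av φ x)`
(`a ∉ Av φ x`), so its card is `l + 1`; by `blank_card` for `ψ` and `#(N x) + 1 ≤ #(L x)` we get `#(Bl N ψ x) ≤ l`.
Injective: `φ = update ψ w (φ w)`. -/
theorem av_step {N : V → Finset V} {L : V → Finset C} {B : Set V} {F : Finset (V → Option C)}
    (hF : Clo N L B F) (x : V) (hB : ∀ w ∈ N x, w ∈ B)
    (hL : #(N x) + 1 ≤ #(L x)) (l : ℕ) :
    #(F.filter fun φ => #(Av N L φ x) = l) * (#(L x) + 1 - 2 * l) ≤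
      #(F.filter fun φ => #(Av N L φ x) = l + 1) * (l * (l + 1)) := by
  refine switch (F.filter fun φ => #(Av N L φ x) = l) (F.filter fun φ => #(Av N L φ x) = l + 1)
    (fun φ => (N x).filter fun w => (∃ a ∈ L x, φ w = some a) ∧
      (∀ w' ∈ N x, φ w' = φ w → w' = w) ∧ φ w ∉ (∅ : Finset (Option C)))
    (fun ψ => (Bl N ψ x) ×ˢ (Av N L ψ x).image some)
    (fun φ w => Function.update φ w none) (fun φ w => (w, φ w)) _ _ ?_ ?_ ?_ ?_ ?_
  · intro φ hφ w hw
    rw [mem_filter] at hφ hw ⊢
    obtain ⟨hwN, ⟨a, haL, ha⟩, hu, _⟩ := hw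
    refine ⟨hF.clo φ hφ.1 _ (Om_update_none (hF.sub hφ.1) w) ?_, ?_⟩
    · intro y hy
      have hne : y ≠ w := fun e => hy (e ▸ hB w hwN)
      exact Function.update_of_ne hne _ _
    · rw [Av_update_none_eq haL ha hu, card_insert_of_notMem, hφ.2]
      rw [mem_Av]
      exact fun h => h.2 w hwN ha
  · intro φ hφ w hw
    rw [mem_filter] at hw
    obtain ⟨hwN, ⟨a, haL, ha⟩, hu, _⟩ := hw
    rw [mem_product]
    refine ⟨?_, ?_⟩
    · rw [Bl, mem_filter]
      exact ⟨hwN, Function.update_self _ _ _⟩
    · rw [mem_image]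
      refine ⟨a, ?_, ha.symm⟩
      rw [Av_update_none_eq haL ha hu]
      exact mem_insert_self _ _
  · intro φ _ w _ φ' _ w' _ h1 h2
    obtain ⟨h3, h4⟩ := Prod.mk.inj h2
    refine ⟨?_, h3⟩
    subst h3
    funext y
    by_cases hy : y = w
    · rw [hy]; exact h4
    · have := congrFun h1 y
      rwa [Function.update_of_ne hy, Function.update_of_ne hy] at this
  · intro φ hφ
    rw [mem_filter] at hφ
    have := once_card N L φ x ∅ hL
    rw [card_empty, hφ.2] at this
    show _ ≤ #((N x).filter fun w => (∃ a ∈ L x, φ w = some a) ∧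
      (∀ w' ∈ N x, φ w' = φ w → w' = w) ∧ φ w ∉ (∅ : Finset (Option C)))
    omega
  · intro ψ hψ
    rw [mem_filter] at hψ
    have h1 := blank_card N L ψ x
    rw [card_product]
    refine Nat.mul_le_mul ?_ ?_
    · omega
    · exact card_image_le.trans hψ.2.le

end Pool.Agent.Helper4.PC
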