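import Pool.Agent.Helper4.PC.Base
import Pool.Agent.Helper4.PC.St.S1A
namespace Pool.Agent.Helper4.PC

open Finset

variable {V C : Type} [Fintype V] [DecidableEq V] [DecidableEq C]

/-- PIECE S1 (second part). For `l < r`: `4 l (l+1) ≤ 8 r^2 + 1 - 2 l ≤ #(L x) + 1 - 2 l`, so with `X l` = card of the filter
`#Av = l` we have `4 * X l ≤ X (l+1)` (if `l = 0` then `X 0 = 0`), hence `4^(r-l) * X l ≤ X r ≤ #F` for `l ≤ r`.
For `2 l ≤ r` we have `2^r ≤ 4^(r-l)`; sum over the at most `r + 1` values `l` with `2 l ≤ r`. -/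
theorem av_tail {N : V → Finset V} {L : V → Finset C} {B : Set V} {F : Finset (V → Option C)}
    (hF : Clo N L B F) (x : V) (hB : ∀ w ∈ N x, w ∈ B)
    (hL : #(N x) + 1 ≤ #(L x)) (r : ℕ) (hr : 8 * r ^ 2 ≤ #(L x)) :
    2 ^ r * #(F.filter fun φ => 2 * #(Av N L φ x) ≤ r) ≤ (r + 1) * #F := by
  classical
  have step : ∀ l, l < r → 4 * #(F.filter fun φ => #(Av N L φ x) = l) ≤
      #(F.filter fun φ => #(Av N L φ x) = l + 1) := by
    intro l hl
    have h := av_step hF x hB hL l
    rcases Nat.eq_zero_or_pos l with h0 | h0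
    · subst h0
      have h1 : #(F.filter fun φ => #(Av N L φ x) = 0) = 0 := by
        rw [Nat.zero_mul, Nat.mul_zero] at h
        rcases Nat.mul_eq_zero.mp (Nat.le_zero.mp h) with h2 | h2
        · exact h2
        · omega
      rw [h1]
      omega
    · have h1 : 4 * (l * (l + 1)) ≤ #(L x) + 1 - 2 * l := by
        have h2 : (l + 1) ^ 2 ≤ r ^ 2 := Nat.pow_le_pow_left hl 2
        have h3 : 4 * (l * (l + 1)) + 2 * l ≤ #(L x) + 1 := by nlinarith
        omega
      have h2 : #(F.filter fun φ => #(Av N L φ x) = l) * (4 * (l * (l + 1))) ≤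
          #(F.filter fun φ => #(Av N L φ x) = l + 1) * (l * (l + 1)) :=
        (Nat.mul_le_mul_left _ h1).trans h
      have h3 : 0 < l * (l + 1) := Nat.mul_pos h0 (Nat.succ_pos l)
      refine Nat.le_of_mul_le_mul_right ?_ h3
      calc 4 * #(F.filter fun φ => #(Av N L φ x) = l) * (l * (l + 1))
          = #(F.filter fun φ => #(Av N L φ x) = l) * (4 * (l * (l + 1))) := by ring
        _ ≤ _ := h2
  have pw : ∀ k l, l + k ≤ r → 4 ^ k * #(F.filter fun φ => #(Av N L φ x) = l) ≤ #F := by
    intro k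
    induction k with
    | zero =>
      intro l _
      rw [pow_zero, one_mul]
      exact card_filter_le _ _
    | succ k ih =>
      intro l hl
      have h1 := ih (l + 1) (by omega)
      have h2 := step l (by omega)
      calc 4 ^ (k + 1) * #(F.filter fun φ => #(Av N L φ x) = l)
          = 4 ^ k * (4 * #(F.filter fun φ => #(Av N L φ x) = l)) := by ring
        _ ≤ 4 ^ k * #(F.filter fun φ => #(Av N L φ x) = l + 1) := Nat.mul_le_mul_left _ h2
        _ ≤ #F := h1
  have each : ∀ l ∈ (range (r + 1)).filter fun l => 2 * l ≤ r,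
      2 ^ r * #(F.filter fun φ => #(Av N L φ x) = l) ≤ #F := by
    intro l hl
    rw [mem_filter, mem_range] at hl
    refine le_trans (Nat.mul_le_mul_right _ ?_) (pw (r - l) l (by omega))
    have h4 : (4 : ℕ) ^ (r - l) = 2 ^ (2 * (r - l)) := by
      rw [pow_mul]; norm_num
    rw [h4]
    exact Nat.pow_le_pow_right (by norm_num) (by omega)
  have hsub : (F.filter fun φ => 2 * #(Av N L φ x) ≤ r) ⊆
      ((range (r + 1)).filter fun l => 2 * l ≤ r).biUnion
        fun l => F.filter fun φ => #(Av N L φ x) = l := by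
    intro φ hφ
    rw [mem_filter] at hφ
    rw [mem_biUnion]
    refine ⟨#(Av N L φ x), ?_, ?_⟩
    · rw [mem_filter, mem_range]
      exact ⟨by omega, hφ.2⟩
    · rw [mem_filter]
      exact ⟨hφ.1, rfl⟩
  have h1 := (card_le_card hsub).trans card_biUnion_le
  calc 2 ^ r * #(F.filter fun φ => 2 * #(Av N L φ x) ≤ r)
      ≤ 2 ^ r * ∑ l ∈ (range (r + 1)).filter (fun l => 2 * l ≤ r),
          #(F.filter fun φ => #(Av N L φ x) = l) := Nat.mul_le_mul_left _ h1
    _ = ∑ l ∈ (range (r + 1)).filter (fun l => 2 * l ≤ r),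
          2 ^ r * #(F.filter fun φ => #(Av N L φ x) = l) := by rw [mul_sum]
    _ ≤ ∑ _l ∈ (range (r + 1)).filter (fun l => 2 * l ≤ r), #F := sum_le_sum each
    _ = #((range (r + 1)).filter (fun l => 2 * l ≤ r)) * #F := by simp
    _ ≤ (r + 1) * #F := by
      refine Nat.mul_le_mul_right _ ?_
      exact (card_filter_le _ _).trans (by simp)

end Pool.Agent.Helper4.PC
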