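import Pool.Agent.Helper4.PC.Base
import Pool.Agent.Helper4.PC.St.A2
namespace Pool.Agent.Helper4.PC

open Finset

variable {V C : Type} [Fintype V] [DecidableEq V] [DecidableEq C]

/-- PIECE FI (greedy filling). Induction on the number of blank vertices of `φ`. If `φ x = none`, `Av N L φ x` is non-empty
(`blank_card` and `hL`); colour `x` with `a` in it: `Om_update_some`. For `v` with `x ∈ N v`: `Bl` loses `x`, `Uq` loses at most one
element (the vertex with colour `a`, if it was unique): `#Bl - 1 < #Uq - 1`. For other `v` nothing changes. At the end `Bl` is empty, `Uq` is not.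
(For `φ` without blanks read off `c` with `φ v = some (c v)`.) -/
theorem fill {N : V → Finset V} {L : V → Finset C} (hG : Gr N)
    (hL : ∀ x, #(N x) + 1 ≤ #(L x)) (W : Finset V) (φ : V → Option C) (hφ : φ ∈ Om N L)
    (hgood : ∀ v ∈ W, #(Bl N φ v) < #(Uq N φ v)) :
    ∃ c : V → C, (∀ v, c v ∈ L v) ∧ (∀ v, ∀ u ∈ N v, c u ≠ c v) ∧
      ∀ v ∈ W, ∃ u ∈ N v, ∀ w ∈ N v, c w = c u → w = u := by
  classical
  obtain ⟨n, hn⟩ : ∃ n, #(univ.filter fun x => φ x = none) = n := ⟨_, rfl⟩
  induction n using Nat.strong_induction_on generalizing φ with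
  | _ n ih =>
  by_cases hb : ∃ x, φ x = none
  · obtain ⟨x, hx⟩ := hb
    have h1 := blank_card N L φ x
    have h2 := hL x
    obtain ⟨a, ha⟩ := card_pos.mp (show 0 < #(Av N L φ x) by omega)
    have hOm := Om_update_some hG hφ ha
    set ψ : V → Option C := Function.update φ x (some a) with hψ
    have ψx : ψ x = some a := by rw [hψ, Function.update_self]
    have ψy : ∀ y, y ≠ x → ψ y = φ y := fun y hy => by rw [hψ, Function.update_of_ne hy]
    refine ih _ ?_ ψ hOm ?_ rfl
    · rw [← hn]
      refine card_lt_card ⟨fun y hy => ?_, fun hsub => ?_⟩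
      · rw [mem_filter] at hy ⊢
        refine ⟨mem_univ _, ?_⟩
        by_cases hyx : y = x
        · subst hyx; exact hx
        · rw [← ψy y hyx]; exact hy.2
      · have h3 := hsub (mem_filter.mpr ⟨mem_univ x, hx⟩)
        have h4 := (mem_filter.mp h3).2
        rw [ψx] at h4
        exact Option.some_ne_none _ h4
    · intro v hv
      have hg := hgood v hv
      by_cases hxv : x ∈ N v
      · have hxB : x ∈ Bl N φ v := mem_filter.mpr ⟨hxv, hx⟩
        have hB : #(Bl N ψ v) + 1 ≤ #(Bl N φ v) := by
          have h3 : Bl N ψ v ⊆ (Bl N φ v).erase x := by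
            intro y hy
            obtain ⟨hy1, hy2⟩ := mem_filter.mp hy
            have hyx : y ≠ x := by
              intro e
              rw [e, ψx] at hy2
              exact Option.some_ne_none _ hy2
            rw [mem_erase]
            exact ⟨hyx, mem_filter.mpr ⟨hy1, (ψy y hyx) ▸ hy2⟩⟩
          have h4 := card_le_card h3
          have h5 := card_erase_add_one hxB
          omega
        have hU : #(Uq N φ v \ Uq N ψ v) ≤ 1 := by
          rw [card_le_one]
          have key : ∀ u ∈ Uq N φ v \ Uq N ψ v, u ∈ N v ∧ φ u = some a ∧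
              ∀ w ∈ N v, φ w = φ u → w = u := by
            intro u hu
            obtain ⟨hu1, hu2⟩ := mem_sdiff.mp hu
            obtain ⟨hu3, hu4, hu5⟩ := mem_filter.mp hu1
            refine ⟨hu3, ?_, hu5⟩
            have hux : u ≠ x := by
              intro e
              rw [e] at hu4
              exact hu4 hx
            by_contra hne
            apply hu2
            refine mem_filter.mpr ⟨hu3, ?_, fun w hw e => ?_⟩
            · rw [ψy u hux]; exact hu4
            · by_cases hwx : w = x
              · rw [hwx, ψx, ψy u hux] at e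
                exact absurd e.symm hne
              · rw [ψy w hwx, ψy u hux] at e
                exact hu5 w hw e
          intro u hu u' hu'
          obtain ⟨h3, h4, h5⟩ := key u hu
          obtain ⟨h6, h7, h8⟩ := key u' hu'
          exact h8 u h3 (h4.trans h7.symm)
        have h6 := card_le_card_sdiff_add_card (s := Uq N φ v) (t := Uq N ψ v)
        omega
      · have hne : ∀ y ∈ N v, y ≠ x := fun y hy e => hxv (e ▸ hy)
        have hB : Bl N ψ v = Bl N φ v := by
          refine filter_congr fun y hy => ?_
          rw [ψy y (hne y hy)]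
        have hU : Uq N ψ v = Uq N φ v := by
          refine filter_congr fun y hy => ?_
          rw [ψy y (hne y hy)]
          refine and_congr Iff.rfl ⟨fun h w hw e => h w hw ?_, fun h w hw e => h w hw ?_⟩
          · rw [ψy w (hne w hw)]; exact e
          · rw [ψy w (hne w hw)] at e; exact e
        rw [hB, hU]; exact hg
  · have hb' : ∀ v, ∃ c, φ v = some c := fun v =>
      Option.ne_none_iff_exists'.mp (fun e => hb ⟨v, e⟩)
    choose c hc using hb'
    have hφ' := mem_Om.mp hφ
    refine ⟨c, fun v => hφ'.1 v _ (hc v), fun v u hu e => ?_, fun v hv => ?_⟩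
    · have h1 := hφ'.2 v u hu (by rw [hc v, hc u, e])
      rw [hc v] at h1
      exact Option.some_ne_none _ h1
    · have h1 := hgood v hv
      obtain ⟨u, hu⟩ := card_pos.mp (show 0 < #(Uq N φ v) by omega)
      obtain ⟨hu1, hu2, hu3⟩ := mem_filter.mp hu
      exact ⟨u, hu1, fun w hw e => hu3 w hw (by rw [hc w, hc u, e])⟩

end Pool.Agent.Helper4.PC
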