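import Pool.Agent.Helper4.PC.Base

namespace Pool.Agent.Helper4.PC

open Finset

/-- PIECE R1 (abstract recursion). Induction on `i`. -/
theorem rec_bound (Q : ℕ → ℝ) (T E : ℝ) (q zmax : ℕ) (hQ : ∀ z, Q z ≤ T) (hE : 0 ≤ E)
    (h : ∀ z, z ≤ zmax → ∀ M, (∀ z', z < z' → z' ≤ z + q → Q z' ≤ M) →
      Q z ≤ 3 / 4 * M + E / 2) :
    ∀ i z, z + i * q ≤ zmax → Q z ≤ (3 / 4) ^ i * T + 2 * E := by
  intro i
  induction i with
  | zero => intro z _; have := hQ z; simp; linarith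
  | succ i ih =>
    intro z hz
    have hz' : z ≤ zmax := by nlinarith [Nat.zero_le ((i + 1) * q)]
    have h1 := h z hz' ((3 / 4) ^ i * T + 2 * E) (fun z' _ h2 => ih z' (by
      have : (i + 1) * q = i * q + q := by ring
      omega))
    have e : ((3 : ℝ) / 4) ^ (i + 1) * T = 3 / 4 * ((3 / 4) ^ i * T) := by ring
    rw [e]; linarith

end Pool.Agent.Helper4.PC
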