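import Pool.Agent.Helper4.PC.Base

namespace Pool.Agent.Helper4.PC

open Finset

variable {V C : Type} [Fintype V] [DecidableEq V] [DecidableEq C]

/-- the partial colourings for which all vertices of `S` are good -/
private def OmS (N : V → Finset V) (L : V → Finset C) (S : Finset V) : Finset (V → Option C) :=
  (Om N L).filter fun φ => ∀ x ∈ S, #(Bl N φ x) < #(Uq N φ x)

private theorem Bl_congr {N : V → Finset V} {φ ψ : V → Option C} {x : V}
    (h : ∀ y ∈ N x, ψ y = φ y) : Bl N ψ x = Bl N φ x := by
  unfold Bl
  refine filter_congr fun u hu => ?_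
  rw [h u hu]

private theorem Uq_congr {N : V → Finset V} {φ ψ : V → Option C} {x : V}
    (h : ∀ y ∈ N x, ψ y = φ y) : Uq N ψ x = Uq N φ x := by
  unfold Uq
  refine filter_congr fun u hu => ?_
  rw [h u hu]
  refine and_congr Iff.rfl ?_
  constructor
  · intro h1 w hw hwu
    exact h1 w hw (by rw [h w hw]; exact hwu)
  · intro h1 w hw hwu
    exact h1 w hw (by rw [h w hw] at hwu; exact hwu)

/-- PIECE RO (Rosenfeld counting). For `S ⊆ W` let `Om_S` = the `φ ∈ Om N L` with `#(Bl N φ x) < #(Uq N φ x)` for all `x ∈ S`.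
Claim: for every `S ⊆ W` and `v ∈ W \ S`: `(1 - p v) #Om_S ≤ #Om_{insert v S}`. Induction on `#S`. Let `S' = S \ B4 v`. `Om_{S'}` is closed
under changes in `ball v` (for `x ∈ S'`, `Uq` and `Bl` at `x` only depend on the values on `N x`, which is disjoint from `ball v` by `hball`).
By `hloc` the `φ ∈ Om_S` with `#Uq ≤ #Bl` at `v` are at most `p v / 2 * #Om_{S'}`. Adding the elements of `S \ S' ⊆ B4 v` to `S'` one after the
other and using the induction hypothesis: `#Om_S ≥ ∏ (1 - p x) #Om_{S'} ≥ (1 - ∑_{x ∈ B4 v} p x) #Om_{S'} ≥ 3/4 #Om_{S'}`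
(`0 ≤ p x ≤ 1/4`, `Finset.prod_one_sub_ge`-type bound, or prove by induction `#Om_{S' ∪ A} ≥ (1 - ∑_{x ∈ A} p x) #Om_{S'}`). So the bad ones
are at most `p v / 2 * 4/3 #Om_S ≤ p v #Om_S`. Finally `#Om_∅ ≥ 1` (the all-blank colouring), so `#Om_W > 0` (`p x ≤ 1/4`). -/
theorem rosenfeld {N : V → Finset V} {L : V → Finset C} (W : Finset V)
    (p : V → ℝ) (hp0 : ∀ x, 0 ≤ p x) (hp1 : ∀ x, p x ≤ 1 / 4) (B4 : V → Finset V)
    (ball : V → Set V) (hB4 : ∀ v ∈ W, ∑ x ∈ B4 v, p x ≤ 1 / 4)
    (hball : ∀ v ∈ W, ∀ x, x ∉ B4 v → ∀ y ∈ N x, y ∉ ball v)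
    (hloc : ∀ v ∈ W, ∀ F : Finset (V → Option C), Clo N L (ball v) F →
      (#(F.filter fun φ => #(Uq N φ v) ≤ #(Bl N φ v)) : ℝ) ≤ p v / 2 * #F) :
    ∃ φ ∈ Om N L, ∀ v ∈ W, #(Bl N φ v) < #(Uq N φ v) := by
  classical
  -- the main claim
  have main : ∀ n : ℕ, ∀ S : Finset V, S ⊆ W → #S = n → ∀ v ∈ W, v ∉ S →
      (1 - p v) * (#(OmS N L S) : ℝ) ≤ #(OmS N L (insert v S)) := by
    intro n
    induction n using Nat.strong_induction_on with
    | _ n ih =>
      intro S hSW hSn v hv hvS
      set S' := S.filter (fun x => x ∉ B4 v) with hS'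
      set T := S.filter (fun x => x ∈ B4 v) with hT
      have hclo : Clo N L (ball v) (OmS N L S') := by
        refine ⟨filter_subset _ _, fun φ hφ ψ hψ h => ?_⟩
        unfold OmS at hφ ⊢
        rw [mem_filter] at hφ ⊢
        refine ⟨hψ, fun x hx => ?_⟩
        have hx' : x ∉ B4 v := (mem_filter.mp hx).2
        have hc : ∀ y ∈ N x, ψ y = φ y := fun y hy => h y (hball v hv x hx' y hy)
        rw [Bl_congr hc, Uq_congr hc]
        exact hφ.2 x hx
      have hbad := hloc v hv _ hclo
      -- adding the elements of T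
      have chain : ∀ A : Finset V, A ⊆ T →
          (1 - ∑ x ∈ A, p x) * (#(OmS N L S') : ℝ) ≤ #(OmS N L (S' ∪ A)) := by
        intro A
        induction A using Finset.induction_on with
        | empty =>
          intro _
          simp
        | insert a A ha ihA =>
          intro hA
          have hA' : A ⊆ T := (subset_insert a A).trans hA
          have h1 := ihA hA'
          have haT : a ∈ T := hA (mem_insert_self a A)
          have haS : a ∈ S := (mem_filter.mp haT).1
          have haS' : a ∉ S' ∪ A := by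
            rw [mem_union]
            rintro (h | h)
            · exact (mem_filter.mp h).2 (mem_filter.mp haT).2
            · exact ha h
          have hsub : insert a (S' ∪ A) ⊆ S := by
            refine insert_subset haS (union_subset (filter_subset _ _) (hA'.trans (filter_subset _ _)))
          have hcard : #(S' ∪ A) < n := by
            have := card_le_card hsub
            rw [card_insert_of_notMem haS'] at this
            omega
          have h2 := ih _ hcard (S' ∪ A) (((subset_insert _ _).trans hsub).trans hSW) rfl a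
            (hSW haS) haS'
          rw [union_insert, sum_insert ha]
          have h3 : 0 ≤ 1 - p a := by linarith [hp1 a]
          have h4 : (1 - p a) * ((1 - ∑ x ∈ A, p x) * (#(OmS N L S') : ℝ)) ≤
              #(OmS N L (insert a (S' ∪ A))) :=
            (mul_le_mul_of_nonneg_left h1 h3).trans h2
          have h5 : 0 ≤ ∑ x ∈ A, p x := sum_nonneg fun x _ => hp0 x
          have h6 : (0 : ℝ) ≤ #(OmS N L S') := Nat.cast_nonneg _
          have h7 : (1 - (p a + ∑ x ∈ A, p x)) * (#(OmS N L S') : ℝ) ≤
              (1 - p a) * ((1 - ∑ x ∈ A, p x) * (#(OmS N L S') : ℝ)) := by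
            have : 0 ≤ p a * (∑ x ∈ A, p x) * (#(OmS N L S') : ℝ) :=
              mul_nonneg (mul_nonneg (hp0 a) h5) h6
            nlinarith
          exact h7.trans h4
      have hST : S' ∪ T = S := by
        ext x
        simp only [hS', hT, mem_union, mem_filter]
        tauto
      have h1 := chain T Subset.rfl
      rw [hST] at h1
      have hTs : ∑ x ∈ T, p x ≤ 1 / 4 := by
        refine le_trans ?_ (hB4 v hv)
        refine sum_le_sum_of_subset_of_nonneg ?_ fun x _ _ => hp0 x
        intro x hx
        exact (mem_filter.mp hx).2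
      have h6 : (0 : ℝ) ≤ #(OmS N L S') := Nat.cast_nonneg _
      have h2 : 3 / 4 * (#(OmS N L S') : ℝ) ≤ #(OmS N L S) := by
        refine le_trans ?_ h1
        exact mul_le_mul_of_nonneg_right (by linarith) h6
      -- split `OmS S`
      have h3 : (#(OmS N L S) : ℝ) ≤ #(OmS N L (insert v S)) +
          #((OmS N L S').filter fun φ => #(Uq N φ v) ≤ #(Bl N φ v)) := by
        have hsub : OmS N L S ⊆ OmS N L (insert v S) ∪
            ((OmS N L S').filter fun φ => #(Uq N φ v) ≤ #(Bl N φ v)) := by
          intro φ hφ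
          unfold OmS at hφ ⊢
          rw [mem_filter] at hφ
          rw [mem_union]
          by_cases hc : #(Bl N φ v) < #(Uq N φ v)
          · left
            rw [mem_filter]
            refine ⟨hφ.1, fun x hx => ?_⟩
            rcases mem_insert.mp hx with h | h
            · rw [h]; exact hc
            · exact hφ.2 x h
          · right
            rw [mem_filter, mem_filter]
            exact ⟨⟨hφ.1, fun x hx => hφ.2 x (mem_filter.mp hx).1⟩, not_lt.mp hc⟩
        have := (card_le_card hsub).trans (card_union_le _ _)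
        exact_mod_cast this
      have h4 : p v / 2 * (#(OmS N L S') : ℝ) ≤ p v * #(OmS N L S) := by
        have h5 : (0 : ℝ) ≤ #(OmS N L S) := Nat.cast_nonneg _
        have h7 := mul_le_mul_of_nonneg_left h2 (hp0 v)
        have h8 : 0 ≤ p v * (#(OmS N L S') : ℝ) := mul_nonneg (hp0 v) h6
        nlinarith
      linarith
  -- positivity
  have pos : ∀ S : Finset V, S ⊆ W → 0 < (#(OmS N L S) : ℝ) := by
    intro S
    induction S using Finset.induction_on with
    | empty =>
      intro _
      have : (fun _ => none : V → Option C) ∈ OmS N L ∅ := by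
        unfold OmS
        rw [mem_filter]
        refine ⟨?_, by simp⟩
        rw [mem_Om]
        exact ⟨fun v c h => by simp at h, fun v u _ _ => rfl⟩
      have := card_pos.mpr ⟨_, this⟩
      exact_mod_cast this
    | insert a S ha ihS =>
      intro h
      have h1 := ihS ((subset_insert a S).trans h)
      have h2 := main _ S ((subset_insert a S).trans h) rfl a (h (mem_insert_self a S)) ha
      have h3 : 0 < 1 - p a := by linarith [hp1 a]
      exact lt_of_lt_of_le (mul_pos h3 h1) h2
  have hW := pos W Subset.rfl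
  have hW' : 0 < #(OmS N L W) := by exact_mod_cast hW
  obtain ⟨φ, hφ⟩ := card_pos.mp hW'
  unfold OmS at hφ
  rw [mem_filter] at hφ
  exact ⟨φ, hφ.1, hφ.2⟩

end Pool.Agent.Helper4.PC
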