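import Pool.Agent.Helper4.PC.Base

namespace Pool.Agent.Helper4.PC

open Finset

variable {V C : Type} [Fintype V] [DecidableEq V] [DecidableEq C]

/-- the other members of the class of `u` -/
private def DS5 (N : V → Finset V) (φ : V → Option C) (v u : V) : Finset V :=
  (Cls N φ v u).erase u

/-- the admissible new colours of a member of the class -/
private def GC5 (N : V → Finset V) (L : V → Finset C) (φ : V → Option C) (v u x : V) : Finset C :=
  (Av N L φ x).filter fun c => some c ≠ φ u ∧ ∀ y ∈ Uq N φ v, φ y ≠ some c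

/-- the choices of the new colour at every vertex -/
private def CH5 (N : V → Finset V) (L : V → Finset C) (φ : V → Option C) (v u x : V) :
    Finset (Option C) :=
  if x ∈ DS5 N φ v u then (GC5 N L φ v u x).image some else {φ x}

omit [Fintype V] in
private theorem mem_DS5 {N : V → Finset V} {φ : V → Option C} {v u x : V} :
    x ∈ DS5 N φ v u ↔ x ≠ u ∧ x ∈ N v ∧ φ x = φ u := by
  unfold DS5 Cls
  rw [mem_erase, mem_filter]

private theorem mem_Uq5 {N : V → Finset V} {φ : V → Option C} {v u : V} :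
    u ∈ Uq N φ v ↔ u ∈ N v ∧ φ u ≠ none ∧ ∀ w ∈ N v, φ w = φ u → w = u := by
  unfold Uq
  rw [mem_filter]

private theorem ch_in5 {N : V → Finset V} {L : V → Finset C} {φ ψ : V → Option C} {v u x : V}
    (h : ψ ∈ Fintype.piFinset (CH5 N L φ v u)) (hx : x ∈ DS5 N φ v u) :
    ∃ c, ψ x = some c ∧ c ∈ Av N L φ x ∧ some c ≠ φ u ∧ ∀ y ∈ Uq N φ v, φ y ≠ some c := by
  have h1 := Fintype.mem_piFinset.mp h x
  unfold CH5 at h1
  rw [if_pos hx, mem_image] at h1
  obtain ⟨c, hc, hc'⟩ := h1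
  unfold GC5 at hc
  rw [mem_filter] at hc
  exact ⟨c, hc'.symm, hc.1, hc.2.1, hc.2.2⟩

private theorem ch_out5 {N : V → Finset V} {L : V → Finset C} {φ ψ : V → Option C} {v u x : V}
    (h : ψ ∈ Fintype.piFinset (CH5 N L φ v u)) (hx : x ∉ DS5 N φ v u) : ψ x = φ x := by
  have h1 := Fintype.mem_piFinset.mp h x
  unfold CH5 at h1
  rw [if_neg hx, mem_singleton] at h1
  exact h1

private theorem om5 {N : V → Finset V} {L : V → Finset C} (hG : Gr N) {φ ψ : V → Option C}
    {v u : V} (hφ : φ ∈ Om N L) (hu : φ u ≠ none)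
    (h : ψ ∈ Fintype.piFinset (CH5 N L φ v u)) : ψ ∈ Om N L := by
  rw [mem_Om] at hφ ⊢
  refine ⟨fun y c hc => ?_, fun y w hw e => ?_⟩
  · by_cases hy : y ∈ DS5 N φ v u
    · obtain ⟨c', h1, h2, -, -⟩ := ch_in5 h hy
      rw [h1] at hc
      rw [← Option.some.inj hc]
      exact (mem_Av.mp h2).1
    · rw [ch_out5 h hy] at hc
      exact hφ.1 y c hc
  · by_cases hy : y ∈ DS5 N φ v u
    · obtain ⟨c, h1, h2, -, -⟩ := ch_in5 h hy
      have h3 := (mem_Av.mp h2).2 w hw
      by_cases hw' : w ∈ DS5 N φ v u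
      · have e1 := (mem_DS5.mp hy).2.2
        have e2 := (mem_DS5.mp hw').2.2
        have e3 := hφ.2 y w hw (e1.trans e2.symm)
        exact absurd (e1.symm.trans e3) hu
      · rw [ch_out5 h hw', h1] at e
        exact absurd e.symm h3
    · rw [ch_out5 h hy] at e ⊢
      by_cases hw' : w ∈ DS5 N φ v u
      · obtain ⟨c, h1, h2, -, -⟩ := ch_in5 h hw'
        have h3 := (mem_Av.mp h2).2 y (hG.symm _ _ hw)
        rw [h1] at e
        exact absurd e h3
      · rw [ch_out5 h hw'] at e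
        exact hφ.2 y w hw e

private theorem uq_old5 {N : V → Finset V} {L : V → Finset C} {φ ψ : V → Option C} {v u : V}
    (huN : u ∈ N v) (h : ψ ∈ Fintype.piFinset (CH5 N L φ v u)) {y : V} (hy : y ∈ Uq N φ v) :
    y ∈ Uq N ψ v := by
  have hy' := mem_Uq5.mp hy
  have hyD : y ∉ DS5 N φ v u := by
    intro hh
    have h1 := mem_DS5.mp hh
    exact h1.1 (hy'.2.2 u huN h1.2.2.symm).symm
  rw [mem_Uq5, ch_out5 h hyD]
  refine ⟨hy'.1, hy'.2.1, fun w hw e => ?_⟩
  by_cases hw' : w ∈ DS5 N φ v u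
  · obtain ⟨c, h1, -, -, h4⟩ := ch_in5 h hw'
    rw [h1] at e
    exact absurd e.symm (h4 y hy)
  · rw [ch_out5 h hw'] at e
    exact hy'.2.2 w hw e

private theorem uq_u5 {N : V → Finset V} {L : V → Finset C} {φ ψ : V → Option C} {v u : V}
    (huN : u ∈ N v) (hu : φ u ≠ none) (h : ψ ∈ Fintype.piFinset (CH5 N L φ v u)) :
    u ∈ Uq N ψ v := by
  have huD : u ∉ DS5 N φ v u := fun hh => (mem_DS5.mp hh).1 rfl
  rw [mem_Uq5, ch_out5 h huD]
  refine ⟨huN, hu, fun w hw e => ?_⟩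
  by_cases hw' : w ∈ DS5 N φ v u
  · obtain ⟨c, h1, -, h3, -⟩ := ch_in5 h hw'
    rw [h1] at e
    exact absurd e h3
  · rw [ch_out5 h hw'] at e
    by_contra hne
    exact hw' (mem_DS5.mpr ⟨hne, hw, e⟩)

private theorem uq_new5 {N : V → Finset V} {L : V → Finset C} {φ ψ : V → Option C} {v u : V}
    (h : ψ ∈ Fintype.piFinset (CH5 N L φ v u)) :
    Uq N ψ v ⊆ Uq N φ v ∪ insert u (DS5 N φ v u) := by
  intro y hy
  rw [mem_union, mem_insert]
  by_contra hne
  push Not at hne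
  obtain ⟨h1, h2, h3⟩ := hne
  apply h1
  have hy' := mem_Uq5.mp hy
  rw [ch_out5 h h3] at hy'
  rw [mem_Uq5]
  refine ⟨hy'.1, hy'.2.1, fun w hw e => ?_⟩
  by_cases hw' : w ∈ DS5 N φ v u
  · have e1 := (mem_DS5.mp hw').2.2
    exact absurd (mem_DS5.mpr ⟨h2, hy'.1, e.symm.trans e1⟩) h3
  · apply hy'.2.2 w hw
    rw [ch_out5 h hw']
    exact e

private theorem card_GC5 {N : V → Finset V} {L : V → Finset C} {φ : V → Option C} {v u x : V}
    {z h : ℕ} (hz : #(Uq N φ v) = z) (hx : z + 1 + h ≤ #(Av N L φ x)) :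
    h ≤ #(GC5 N L φ v u x) := by
  unfold GC5
  have h1 := card_filter_add_card_filter_not (s := Av N L φ x)
    (fun c => some c ≠ φ u ∧ ∀ y ∈ Uq N φ v, φ y ≠ some c)
  have h2 : #((Av N L φ x).filter fun c => ¬ (some c ≠ φ u ∧ ∀ y ∈ Uq N φ v, φ y ≠ some c)) ≤
      z + 1 := by
    calc #((Av N L φ x).filter fun c => ¬ (some c ≠ φ u ∧ ∀ y ∈ Uq N φ v, φ y ≠ some c))
        = #(((Av N L φ x).filter fun c =>
            ¬ (some c ≠ φ u ∧ ∀ y ∈ Uq N φ v, φ y ≠ some c)).image some) :=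
          (card_image_of_injective _ (Option.some_injective C)).symm
      _ ≤ #(insert (φ u) ((Uq N φ v).image φ)) := by
          apply card_le_card
          intro o ho
          rw [mem_image] at ho
          obtain ⟨c, hc, rfl⟩ := ho
          rw [mem_filter] at hc
          rw [mem_insert, mem_image]
          by_cases hcu : some c = φ u
          · exact Or.inl hcu
          · right
            by_contra hne
            push Not at hne
            exact hc.2 ⟨hcu, hne⟩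
      _ ≤ #((Uq N φ v).image φ) + 1 := card_insert_le _ _
      _ ≤ z + 1 := by
          have := card_image_le (s := Uq N φ v) (f := φ)
          omega
  omega

private theorem card_CH5 {N : V → Finset V} {L : V → Finset C} {φ : V → Option C} {v u : V}
    {z h s : ℕ} (huN : u ∈ N v) (hz : #(Uq N φ v) = z) (hs : #(Cls N φ v u) = s)
    (hx : ∀ x ∈ Cls N φ v u, z + 1 + h ≤ #(Av N L φ x)) :
    h ^ (s - 1) ≤ #(Fintype.piFinset (CH5 N L φ v u)) := by
  rw [Fintype.card_piFinset]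
  have hD : #(DS5 N φ v u) = s - 1 := by
    unfold DS5
    rw [card_erase_of_mem, hs]
    unfold Cls
    rw [mem_filter]
    exact ⟨huN, rfl⟩
  have h1 : ∏ x, #(CH5 N L φ v u x) = ∏ x ∈ DS5 N φ v u, #(CH5 N L φ v u x) := by
    symm
    apply prod_subset (subset_univ _)
    intro x _ hx
    unfold CH5
    rw [if_neg hx, card_singleton]
  rw [h1, ← hD, ← prod_const]
  apply prod_le_prod'
  intro x hxD
  unfold CH5
  rw [if_pos hxD, card_image_of_injective _ (Option.some_injective C)]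
  exact card_GC5 hz (hx x (mem_of_mem_erase hxD))

/-- PIECE S5 (class step). `switch`. For `φ` in the first filter call `u ∈ N v` admissible if it is in the filter there.
Moves of `φ`: `(u, ψ)` with `u` admissible, and with `D = (Cls N φ v u).erase u` (`#D = s - 1`),
`ψ ∈ Fintype.piFinset (fun x => if x ∈ D then ((Av N L φ x).filter (fun c => some c ≠ φ u ∧ ∀ y ∈ Uq N φ v, φ y ≠ some c)).image some
else {φ x})`. For `x ∈ D` there are at least `(z + 1 + h) - 1 - z = h` choices, so (by `Fintype.card_piFinset`) at least `h^(s-1)` maps `ψ`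
per `u`, i.e. `≥ R * h^(s-1)` moves. `f φ (u, ψ) = ψ`, label `(u, D)`, labels of `ψ`: `(Uq N ψ v) ×ˢ (powersetCard (s-1) (N v))`,
card `≤ (z+s) * #(N v)^(s-1)` (`Nat.choose_le_pow`-type bound).
Checks. The elements of `D` all have the colour of `u` (not none) under `φ ∈ Om`, so they are pairwise non-adjacent; each gets a colour which is
available for it under `φ`; neighbours of an element of `D` are not in `D`, so keep their colour: `ψ ∈ Om`. `D ⊆ N v ⊆ B`.
`Uq N φ v ⊆ Uq N ψ v` (unique colours are avoided, and their vertices are not in `D`), `u ∈ Uq N ψ v`, `u ∉ Uq N φ v` as `s ≥ 2`;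
conversely `Uq N ψ v ⊆ Uq N φ v ∪ {u} ∪ D` (a vertex outside `D ∪ {u}` with a repeated colour under `φ` is in another class, no member of which
is recoloured). So `z < #(Uq N ψ v) ≤ z + s`. Injective: `φ x = ψ u` for `x ∈ D` and `φ x = ψ x` otherwise. -/
theorem class_step {N : V → Finset V} {L : V → Finset C} {B : Set V} {F : Finset (V → Option C)}
    (hG : Gr N) (hF : Clo N L B F) (v : V) (hB1 : ∀ u ∈ N v, u ∈ B) (z s h R : ℕ)
    (hs : 2 ≤ s) :
    #(F.filter fun φ => #(Uq N φ v) = z ∧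
        R ≤ #((N v).filter fun u => φ u ≠ none ∧ #(Cls N φ v u) = s ∧
          ∀ u' ∈ Cls N φ v u, z + 1 + h ≤ #(Av N L φ u'))) * (R * h ^ (s - 1)) ≤
      #(F.filter fun φ => z < #(Uq N φ v) ∧ #(Uq N φ v) ≤ z + s) *
        ((z + s) * #(N v) ^ (s - 1)) := by
  classical
  -- facts for a move
  have key : ∀ φ ∈ F.filter (fun φ => #(Uq N φ v) = z ∧
        R ≤ #((N v).filter fun u => φ u ≠ none ∧ #(Cls N φ v u) = s ∧
          ∀ u' ∈ Cls N φ v u, z + 1 + h ≤ #(Av N L φ u'))),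
      ∀ u ∈ (N v).filter (fun u => φ u ≠ none ∧ #(Cls N φ v u) = s ∧
          ∀ u' ∈ Cls N φ v u, z + 1 + h ≤ #(Av N L φ u')),
      ∀ ψ ∈ Fintype.piFinset (CH5 N L φ v u),
        ψ ∈ F ∧ z < #(Uq N ψ v) ∧ #(Uq N ψ v) ≤ z + s ∧ u ∈ Uq N ψ v ∧
          DS5 N φ v u ∈ powersetCard (s - 1) (N v) := by
    intro φ hφ u hu ψ hψ
    rw [mem_filter] at hφ hu
    obtain ⟨huN, hun, hcs, -⟩ := hu
    have hφO := hF.sub hφ.1
    have hDsub : DS5 N φ v u ⊆ N v := fun x hx => (mem_DS5.mp hx).2.1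
    have hD : #(DS5 N φ v u) = s - 1 := by
      unfold DS5
      rw [card_erase_of_mem, hcs]
      unfold Cls
      rw [mem_filter]
      exact ⟨huN, rfl⟩
    have h1 : u ∈ Uq N ψ v := uq_u5 huN hun hψ
    have h2 : u ∉ Uq N φ v := by
      intro hh
      have hpos : 0 < #(DS5 N φ v u) := by omega
      obtain ⟨w, hw⟩ := card_pos.mp hpos
      have hw' := mem_DS5.mp hw
      exact hw'.1 ((mem_Uq5.mp hh).2.2 w hw'.2.1 hw'.2.2)
    refine ⟨hF.clo φ hφ.1 ψ (om5 hG hφO hun hψ) (fun x hx => ch_out5 hψ fun hh =>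
      hx (hB1 x (hDsub hh))), ?_, ?_, h1, ?_⟩
    · have h3 : insert u (Uq N φ v) ⊆ Uq N ψ v := by
        intro y hy
        rw [mem_insert] at hy
        rcases hy with rfl | hy
        · exact h1
        · exact uq_old5 huN hψ hy
      have h4 := card_le_card h3
      rw [card_insert_of_notMem h2] at h4
      have := hφ.2.1
      omega
    · have h3 := card_le_card (uq_new5 hψ)
      have h4 := card_union_le (Uq N φ v) (insert u (DS5 N φ v u))
      have h5 := card_insert_le u (DS5 N φ v u)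
      have := hφ.2.1
      omega
    · rw [mem_powersetCard]
      exact ⟨hDsub, hD⟩
  refine switch (β := (_ : V) × (V → Option C)) (δ := V × Finset V) _ _
    (fun φ => ((N v).filter (fun u => φ u ≠ none ∧ #(Cls N φ v u) = s ∧
          ∀ u' ∈ Cls N φ v u, z + 1 + h ≤ #(Av N L φ u'))).sigma
        fun u => Fintype.piFinset (CH5 N L φ v u))
    (fun ψ => (Uq N ψ v) ×ˢ (powersetCard (s - 1) (N v)))
    (fun _ b => b.2) (fun φ b => (b.1, DS5 N φ v b.1)) _ _ ?_ ?_ ?_ ?_ ?_
  · rintro φ hφ ⟨u, ψ⟩ hb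
    rw [mem_sigma] at hb
    obtain ⟨k1, k2, k3, k4, k5⟩ := key φ hφ u hb.1 ψ hb.2
    exact mem_filter.mpr ⟨k1, k2, k3⟩
  · rintro φ hφ ⟨u, ψ⟩ hb
    rw [mem_sigma] at hb
    obtain ⟨k1, k2, k3, k4, k5⟩ := key φ hφ u hb.1 ψ hb.2
    exact mem_product.mpr ⟨k4, k5⟩
  · rintro φ hφ ⟨u, ψ⟩ hb φ' hφ' ⟨u', ψ'⟩ hb' e1 e2
    rw [mem_sigma] at hb hb'
    simp only [Prod.mk.injEq] at e1 e2 hb hb'
    obtain ⟨e3, e4⟩ := e2
    subst e1
    subst e3
    have : φ = φ' := by
      funext x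
      by_cases hx : x ∈ DS5 N φ v u
      · have hx' : x ∈ DS5 N φ' v u := e4 ▸ hx
        have huD : u ∉ DS5 N φ v u := fun hh => (mem_DS5.mp hh).1 rfl
        have huD' : u ∉ DS5 N φ' v u := fun hh => (mem_DS5.mp hh).1 rfl
        rw [(mem_DS5.mp hx).2.2, (mem_DS5.mp hx').2.2, ← ch_out5 hb.2 huD,
          ← ch_out5 hb'.2 huD']
      · have hx' : x ∉ DS5 N φ' v u := e4 ▸ hx
        rw [← ch_out5 hb.2 hx, ← ch_out5 hb'.2 hx']
    exact ⟨this, rfl⟩
  · intro φ hφ
    rw [card_sigma]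
    have hφ' := (mem_filter.mp hφ).2
    calc R * h ^ (s - 1) ≤ #((N v).filter (fun u => φ u ≠ none ∧ #(Cls N φ v u) = s ∧
          ∀ u' ∈ Cls N φ v u, z + 1 + h ≤ #(Av N L φ u'))) * h ^ (s - 1) :=
          Nat.mul_le_mul_right _ hφ'.2
      _ = ∑ _u ∈ (N v).filter (fun u => φ u ≠ none ∧ #(Cls N φ v u) = s ∧
          ∀ u' ∈ Cls N φ v u, z + 1 + h ≤ #(Av N L φ u')), h ^ (s - 1) := by
          rw [sum_const, smul_eq_mul]
      _ ≤ _ := by
          apply sum_le_sum
          intro u hu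
          rw [mem_filter] at hu
          exact card_CH5 hu.1 hφ'.1 hu.2.2.1 hu.2.2.2
  · intro ψ hψ
    rw [mem_filter] at hψ
    rw [card_product, card_powersetCard]
    exact Nat.mul_le_mul hψ.2.2 (Nat.choose_le_pow _ _)

end Pool.Agent.Helper4.PC
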