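import Pool.Agent.Helper4.PC.Base
import Pool.Agent.Helper4.PC.St.A2
namespace Pool.Agent.Helper4.PC

open Finset

variable {V C : Type} [Fintype V] [DecidableEq V] [DecidableEq C]

/-- PIECE T1 (trichotomy), for one fixed `φ`. Suppose the first two alternatives fail. As `#Nu = #(N v) - #Bl - #Uq` (`nu_card`) and fewer than
`K * t1` elements of `Nu` have `#Av ≤ t1`, at least `R1` have `#Av ≥ t1 + 1 ≥ t1/2 + t1/2`: so if `#((N v).image φ) ≤ t1/2` the third alternative holds.
Otherwise the set `Co` of colours `≠ none` on `N v` has at least `t1/2` elements. Remove the colours used once (`#Uq` many), the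
colours used more than `q` times (at most `#(N v) / q`, since `q * number ≤ #(N v)`), and those of the remaining colours for which some
neighbour `u` of that colour has `#Av ≤ t2` (each such `u` is in `Nu`, so fewer than `K * t2`, or none if `K * t2 = 0`). At least `q * R3` colours remain;
they are used `s` times with `2 ≤ s ≤ q`, so by the pigeonhole principle (`exists_le_card_fiber_of_mul_le_card_of_maps_to` or by contradiction)
some `s` occurs for at least `R3` colours (`q - 1 ≤ q` values of `s`). Choose one neighbour for each such colour: at least `R3` elements of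
the last filter (`h4` gives `#Uq + 1 + h3 ≤ t2 + 1 ≤ #Av`). -/
theorem tri (N : V → Finset V) (L : V → Finset C) (φ : V → Option C) (v : V)
    (t1 t2 K q R1 R3 h3 : ℕ) (hq : 2 ≤ q)
    (h1 : #(Bl N φ v) + #(Uq N φ v) + K * t1 + R1 ≤ #(N v))
    (h2 : q * R3 + #(Uq N φ v) + #(N v) / q + K * t2 ≤ t1 / 2)
    (h4 : #(Uq N φ v) + h3 ≤ t2) :
    K * t1 ≤ #((Nu N φ v).filter fun u => #(Av N L φ u) ≤ t1) ∨
    K * t2 ≤ #((Nu N φ v).filter fun u => #(Av N L φ u) ≤ t2) ∨
    (#((N v).image φ) ≤ t1 / 2 ∧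
      R1 ≤ #((Nu N φ v).filter fun u => t1 / 2 + t1 / 2 ≤ #(Av N L φ u))) ∨
    ∃ s, 2 ≤ s ∧ s ≤ q ∧ R3 ≤ #((N v).filter fun u => φ u ≠ none ∧ #(Cls N φ v u) = s ∧
      ∀ u' ∈ Cls N φ v u, #(Uq N φ v) + 1 + h3 ≤ #(Av N L φ u')) := by
  by_cases hA : K * t1 ≤ #((Nu N φ v).filter fun u => #(Av N L φ u) ≤ t1)
  · exact Or.inl hA
  by_cases hB : K * t2 ≤ #((Nu N φ v).filter fun u => #(Av N L φ u) ≤ t2)
  · exact Or.inr (Or.inl hB)
  right; right
  rw [not_le] at hA hB
  by_cases hI : #((N v).image φ) ≤ t1 / 2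
  · left
    refine ⟨hI, ?_⟩
    have h5 := nu_card N φ v
    have h6 := card_filter_add_card_filter_not (s := Nu N φ v) (fun u => #(Av N L φ u) ≤ t1)
    have h7 : #((Nu N φ v).filter fun u => ¬ #(Av N L φ u) ≤ t1) ≤
        #((Nu N φ v).filter fun u => t1 / 2 + t1 / 2 ≤ #(Av N L φ u)) := by
      apply card_le_card
      intro u hu
      rw [mem_filter] at hu ⊢
      exact ⟨hu.1, by omega⟩
    omega
  right
  rw [not_le] at hI
  rcases Nat.eq_zero_or_pos R3 with hR | hR
  · exact ⟨2, le_rfl, hq, by omega⟩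
  set Co := ((N v).image φ).erase none with hCodef
  have hCo : t1 / 2 ≤ #Co := by
    have := pred_card_le_card_erase (s := (N v).image φ) (a := none)
    rw [← hCodef] at this
    omega
  set cnt : Option C → ℕ := fun c => #((N v).filter fun w => φ w = c) with hcnt
  have hmemCo : ∀ c ∈ Co, c ≠ none ∧ ∃ u ∈ N v, φ u = c := by
    intro c hc
    rw [hCodef, mem_erase, mem_image] at hc
    exact ⟨hc.1, hc.2⟩
  have e1 : #(Co.filter fun c => cnt c = 1) ≤ #(Uq N φ v) := by
    refine le_trans (card_le_card (t := (Uq N φ v).image φ) ?_) card_image_le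
    intro c hc
    rw [mem_filter] at hc
    obtain ⟨hn, u, hu, huc⟩ := hmemCo c hc.1
    rw [mem_image]
    refine ⟨u, ?_, huc⟩
    rw [Uq, mem_filter]
    refine ⟨hu, by rw [huc]; exact hn, ?_⟩
    intro w hw hwu
    obtain ⟨x, hx⟩ := card_eq_one.1 hc.2
    have h1 : w ∈ (N v).filter fun w => φ w = c := mem_filter.2 ⟨hw, by rw [hwu, huc]⟩
    have h2 : u ∈ (N v).filter fun w => φ w = c := mem_filter.2 ⟨hu, huc⟩
    rw [hx, mem_singleton] at h1 h2
    rw [h1, h2]
  have e2 : #(Co.filter fun c => q < cnt c) ≤ #(N v) / q := by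
    rw [Nat.le_div_iff_mul_le (by omega)]
    have h1 : #(Co.filter fun c => q < cnt c) * q ≤ ∑ c ∈ Co.filter fun c => q < cnt c, cnt c := by
      rw [← smul_eq_mul, ← sum_const]
      exact sum_le_sum fun c hc => (mem_filter.1 hc).2.le
    have h2 : ∑ c ∈ Co.filter fun c => q < cnt c, cnt c ≤ #(N v) := by
      rw [hcnt]
      refine le_trans (le_of_eq (card_biUnion ?_).symm) (card_le_card ?_)
      · intro a _ b _ hab
        rw [Function.onFun, Finset.disjoint_left]
        intro w h1 h2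
        exact hab ((mem_filter.1 h1).2.symm.trans (mem_filter.1 h2).2)
      · intro w hw
        obtain ⟨c, _, hw⟩ := mem_biUnion.1 hw
        exact (mem_filter.1 hw).1
    exact h1.trans h2
  have e3 : #(Co.filter fun c => ∃ u ∈ (Nu N φ v).filter fun u => #(Av N L φ u) ≤ t2, φ u = c) ≤
      #((Nu N φ v).filter fun u => #(Av N L φ u) ≤ t2) := by
    refine le_trans (card_le_card (t := ((Nu N φ v).filter fun u => #(Av N L φ u) ≤ t2).image φ) ?_)
      card_image_le
    intro c hc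
    obtain ⟨_, u, hu, huc⟩ := mem_filter.1 hc
    exact mem_image.2 ⟨u, hu, huc⟩
  set G := Co.filter fun c => 2 ≤ cnt c ∧ cnt c ≤ q ∧ ∀ u ∈ N v, φ u = c → t2 < #(Av N L φ u)
    with hG
  have hcov : Co ⊆ ((Co.filter fun c => cnt c = 1) ∪ (Co.filter fun c => q < cnt c)) ∪
      ((Co.filter fun c => ∃ u ∈ (Nu N φ v).filter fun u => #(Av N L φ u) ≤ t2, φ u = c) ∪ G) := by
    intro c hc
    obtain ⟨hn, u, hu, huc⟩ := hmemCo c hc
    have hpos : 0 < cnt c := card_pos.2 ⟨u, mem_filter.2 ⟨hu, huc⟩⟩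
    rw [mem_union, mem_union, mem_union]
    by_cases h1 : cnt c = 1
    · exact Or.inl (Or.inl (mem_filter.2 ⟨hc, h1⟩))
    by_cases h2 : q < cnt c
    · exact Or.inl (Or.inr (mem_filter.2 ⟨hc, h2⟩))
    right
    by_cases h3 : ∀ u ∈ N v, φ u = c → t2 < #(Av N L φ u)
    · right
      exact mem_filter.2 ⟨hc, by omega, by omega, h3⟩
    · left
      push Not at h3
      obtain ⟨w, hw, hwc, hwt⟩ := h3
      refine mem_filter.2 ⟨hc, w, mem_filter.2 ⟨?_, hwt⟩, hwc⟩
      rw [Nu, mem_filter]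
      refine ⟨hw, by rw [hwc]; exact hn, fun hU => ?_⟩
      rw [Uq, mem_filter] at hU
      apply h1
      apply card_eq_one.2
      refine ⟨w, ?_⟩
      ext x
      rw [mem_filter, mem_singleton]
      constructor
      · rintro ⟨hx, hxc⟩
        exact hU.2.2 x hx (by rw [hxc, hwc])
      · rintro rfl
        exact ⟨hw, hwc⟩
  have hGcard : q * R3 ≤ #G := by
    have h1 := card_le_card hcov
    have h3 := card_union_le ((Co.filter fun c => cnt c = 1) ∪ (Co.filter fun c => q < cnt c))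
      ((Co.filter fun c => ∃ u ∈ (Nu N φ v).filter fun u => #(Av N L φ u) ≤ t2, φ u = c) ∪ G)
    have h5 := card_union_le (Co.filter fun c => cnt c = 1) (Co.filter fun c => q < cnt c)
    have h6 := card_union_le
      (Co.filter fun c => ∃ u ∈ (Nu N φ v).filter fun u => #(Av N L φ u) ≤ t2, φ u = c) G
    omega
  obtain ⟨s, hs, hsR⟩ : ∃ s ∈ Icc 2 q, R3 ≤ #(G.filter fun c => cnt c = s) := by
    by_contra hcon
    push Not at hcon
    have hmap : ∀ c ∈ G, cnt c ∈ Icc 2 q := by
      intro c hc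
      have := (mem_filter.1 hc).2
      exact mem_Icc.2 ⟨this.1, this.2.1⟩
    have h1 := card_eq_sum_card_fiberwise hmap
    have h3 : ∑ s ∈ Icc 2 q, #(G.filter fun c => cnt c = s) ≤ ∑ _s ∈ Icc 2 q, R3 :=
      sum_le_sum fun s hs => (hcon s hs).le
    rw [sum_const, Nat.card_Icc, smul_eq_mul] at h3
    have h5 : (q + 1 - 2) * R3 < q * R3 := Nat.mul_lt_mul_of_pos_right (by omega) hR
    omega
  rw [mem_Icc] at hs
  refine ⟨s, hs.1, hs.2, hsR.trans ?_⟩
  refine le_trans (card_le_card (t := ((N v).filter fun u => φ u ≠ none ∧ #(Cls N φ v u) = s ∧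
      ∀ u' ∈ Cls N φ v u, #(Uq N φ v) + 1 + h3 ≤ #(Av N L φ u')).image φ) ?_) card_image_le
  intro c hc
  obtain ⟨hcG, hcs⟩ := mem_filter.1 hc
  obtain ⟨hcCo, _, _, hAv⟩ := mem_filter.1 hcG
  obtain ⟨hn, u, hu, huc⟩ := hmemCo c hcCo
  refine mem_image.2 ⟨u, mem_filter.2 ⟨hu, by rw [huc]; exact hn, ?_, ?_⟩, huc⟩
  · rw [Cls, huc]
    exact hcs
  · intro u' hu'
    rw [Cls, mem_filter] at hu'
    have := hAv u' hu'.1 (by rw [hu'.2, huc])
    omega

end Pool.Agent.Helper4.PC
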