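import Pool.Agent.Helper4.PC.Base
import Pool.Agent.Helper4.PC.St.S3
import Pool.Agent.Helper4.PC.St.S4
import Pool.Agent.Helper4.PC.St.S5
import Pool.Agent.Helper4.PC.St.T1

namespace Pool.Agent.Helper4.PC

open Finset

variable {V C : Type} [Fintype V] [DecidableEq V] [DecidableEq C]

/-- from `s * f ≤ t * x` and `c * x ≤ f`, `0 < x` get `c * s ≤ t` -/
private theorem div_step {s t f x c : ℕ} (hx : 0 < x) (h1 : s * f ≤ t * x) (h2 : c * x ≤ f) :
    c * s ≤ t := by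
  have h3 : (c * s) * x ≤ t * x := by
    calc (c * s) * x = s * (c * x) := by ring
      _ ≤ s * f := Nat.mul_le_mul_left _ h2
      _ ≤ t * x := h1
  exact Nat.le_of_mul_le_mul_right h3 hx

/-- PIECE L1 (one level). Notation: `Q z = #{φ ∈ F : Nice, #Uq = z}`, `E = #{φ ∈ F : ¬ Nice}`. Let `z ≤ zmax`.
By `tri` (its hypotheses follow from `n1 n2 n3`, `#Bl < b0` and `#Uq = z ≤ zmax`) every `φ ∈ F` with `Nice` and `#Uq = z` lies in one of the
left-hand filters of: `rigid_step` with `t = t1`, `R = K * t1`; `rigid_step` with `t = t2`, `R = K * t2`; `new_step` with `k = h = t1 / 2`,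
`R = R1`; `class_step` with some `2 ≤ s ≤ q`, `R = R3`, `h = h3`. (`m + 1 ≤ #Av` follows from `r < 2 #Av` and `hm`.)
With `T2 = #{φ ∈ F : #Uq = z+1 or z+2}` and `T s = #{φ ∈ F : z < #Uq ≤ z+s}`, dividing by the positive factors and using
`a1 a2 a3` the first three filters have at most `T2 / 16` elements each, and by `a4` the `s`-th class filter has at most `T s / (4 q^2)`.
`T2 ≤ Q (z+1) + Q (z+2) + E ≤ 2 M + E` and `T s ≤ q M + E` (each element not Nice is counted in `E`). Total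
`Q z ≤ 3/16 (2 M + E) + q * (q M + E) / (4 q^2) ≤ 5/8 M + 5/16 E ≤ 3/4 M + E/2` (`M ≥ 0` because `M ≥ Q (z+1)`). -/
theorem level {N : V → Finset V} {L : V → Finset C} {B : Set V} {F : Finset (V → Option C)}
    (hG : Gr N) (hF : Clo N L B F) (v : V) (hB1 : ∀ u ∈ N v, u ∈ B)
    (hB2 : ∀ u ∈ N v, ∀ w ∈ N u, w ∈ B) (r b0 zmax m K t1 t2 q h D R1 R3 h3 : ℕ)
    (hL : ∀ u ∈ N v, #(N u) + 1 ≤ #(L u)) (hD : ∀ u ∈ N v, #(N u) ≤ D)
    (hh : ∀ u ∈ N v, 2 * h + 4 * t1 + #(N v) + zmax + 1 ≤ 2 * #(L u))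
    (hm : 2 * m + 1 ≤ r) (ht : t2 ≤ t1) (hq : 2 ≤ q) (hD0 : 0 < D) (hd0 : 0 < #(N v))
    (n1 : b0 + zmax + K * t1 + R1 ≤ #(N v))
    (n2 : q * R3 + zmax + #(N v) / q + K * t2 ≤ t1 / 2)
    (n3 : zmax + h3 ≤ t2)
    (a1 : 16 * ((zmax + 2) * (t1 + 1) * D) ≤ K * t1 * h * m)
    (a2 : 16 * ((zmax + 2) * (t2 + 1) * D) ≤ K * t2 * h * m)
    (a3 : 16 * ((zmax + 2) * #(N v)) ≤ R1 * (t1 / 2))
    (a4 : ∀ s, 2 ≤ s → s ≤ q →
      4 * q ^ 2 * ((zmax + s) * #(N v) ^ (s - 1)) ≤ R3 * h3 ^ (s - 1))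
    (z : ℕ) (hz : z ≤ zmax) (M : ℝ)
    (hM : ∀ z', z < z' → z' ≤ z + q →
      (#(F.filter fun φ => Nice N L r b0 v φ ∧ #(Uq N φ v) = z') : ℝ) ≤ M) :
    (#(F.filter fun φ => Nice N L r b0 v φ ∧ #(Uq N φ v) = z) : ℝ) ≤
      3 / 4 * M + #(F.filter fun φ => ¬ Nice N L r b0 v φ) / 2 := by
  -- abbreviations
  set E := #(F.filter fun φ => ¬ Nice N L r b0 v φ) with hE
  set T2 := #(F.filter fun φ => #(Uq N φ v) = z + 1 ∨ #(Uq N φ v) = z + 2) with hT2
  set Sa1 := F.filter fun φ => #(Uq N φ v) = z ∧ (∀ u ∈ N v, ∀ w ∈ N u, m + 1 ≤ #(Av N L φ w)) ∧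
        K * t1 ≤ #((Nu N φ v).filter fun u => #(Av N L φ u) ≤ t1) with hSa1
  set Sa2 := F.filter fun φ => #(Uq N φ v) = z ∧ (∀ u ∈ N v, ∀ w ∈ N u, m + 1 ≤ #(Av N L φ w)) ∧
        K * t2 ≤ #((Nu N φ v).filter fun u => #(Av N L φ u) ≤ t2) with hSa2
  set Sb := F.filter fun φ => #(Uq N φ v) = z ∧ #((N v).image φ) ≤ t1 / 2 ∧
        R1 ≤ #((Nu N φ v).filter fun u => t1 / 2 + t1 / 2 ≤ #(Av N L φ u)) with hSb
  set Sc : ℕ → Finset (V → Option C) := fun s => F.filter fun φ => #(Uq N φ v) = z ∧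
        R3 ≤ #((N v).filter fun u => φ u ≠ none ∧ #(Cls N φ v u) = s ∧
          ∀ u' ∈ Cls N φ v u, z + 1 + h3 ≤ #(Av N L φ u')) with hSc
  -- step inequalities
  have s1 : 16 * #Sa1 ≤ T2 := by
    have e := rigid_step hG hF v hB1 hB2 z t1 m (K * t1) h D hL hD
      (fun u hu => by have := hh u hu; omega)
    refine div_step (x := (zmax + 2) * (t1 + 1) * D) (by positivity) (e.trans ?_) a1
    refine Nat.mul_le_mul_left _ ?_
    gcongr
  have s2 : 16 * #Sa2 ≤ T2 := by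
    have e := rigid_step hG hF v hB1 hB2 z t2 m (K * t2) h D hL hD
      (fun u hu => by have := hh u hu; omega)
    refine div_step (x := (zmax + 2) * (t2 + 1) * D) (by positivity) (e.trans ?_) a2
    refine Nat.mul_le_mul_left _ ?_
    gcongr
  have s3 : 16 * #Sb ≤ T2 := by
    have e := new_step hG hF v hB1 z (t1 / 2) (t1 / 2) R1
    refine div_step (x := (zmax + 2) * #(N v)) (by positivity) (e.trans ?_) a3
    refine Nat.mul_le_mul_left _ ?_
    gcongr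
  have s4 : ∀ s, 2 ≤ s → s ≤ q → 4 * q ^ 2 * #(Sc s) ≤
      #(F.filter fun φ => z < #(Uq N φ v) ∧ #(Uq N φ v) ≤ z + s) := by
    intro s hs hsq
    have e := class_step hG hF v hB1 z s h3 R3 hs
    refine div_step (x := (zmax + s) * #(N v) ^ (s - 1)) (by positivity) (e.trans ?_) (a4 s hs hsq)
    refine Nat.mul_le_mul_left _ ?_
    gcongr
  -- covering
  have hcov : (F.filter fun φ => Nice N L r b0 v φ ∧ #(Uq N φ v) = z) ⊆
      Sa1 ∪ Sa2 ∪ Sb ∪ (Icc 2 q).biUnion Sc := by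
    intro φ hφ
    rw [mem_filter] at hφ
    obtain ⟨hφF, hn, hzz⟩ := hφ
    have hmm : ∀ u ∈ N v, ∀ w ∈ N u, m + 1 ≤ #(Av N L φ w) := fun u hu w hw => by
      have := hn.1.2 u hu w hw; omega
    have hbb := hn.2
    have htri := tri N L φ v t1 t2 K q R1 R3 h3 hq (by omega)
      (by rw [hzz]; omega) (by rw [hzz]; omega)
    rw [mem_union, mem_union, mem_union]
    rcases htri with h | h | h | ⟨s, hs2, hsq, h⟩
    · exact Or.inl (Or.inl (Or.inl (mem_filter.mpr ⟨hφF, hzz, hmm, h⟩)))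
    · exact Or.inl (Or.inl (Or.inr (mem_filter.mpr ⟨hφF, hzz, hmm, h⟩)))
    · exact Or.inl (Or.inr (mem_filter.mpr ⟨hφF, hzz, h.1, h.2⟩))
    · refine Or.inr (mem_biUnion.mpr ⟨s, mem_Icc.mpr ⟨hs2, hsq⟩, mem_filter.mpr ⟨hφF, hzz, ?_⟩⟩)
      rw [hzz] at h
      exact h
  have hcard : #(F.filter fun φ => Nice N L r b0 v φ ∧ #(Uq N φ v) = z) ≤
      #Sa1 + #Sa2 + #Sb + ∑ s ∈ Icc 2 q, #(Sc s) := by
    refine (card_le_card hcov).trans ?_
    refine (card_union_le _ _).trans (Nat.add_le_add ?_ card_biUnion_le)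
    refine (card_union_le _ _).trans (Nat.add_le_add_right ?_ _)
    exact card_union_le _ _
  -- upper bounds for the target sets
  have hT : ∀ s, s ≤ q → (#(F.filter fun φ => z < #(Uq N φ v) ∧ #(Uq N φ v) ≤ z + s) : ℝ) ≤
      s * M + E := by
    intro s hs
    have hsub : (F.filter fun φ => z < #(Uq N φ v) ∧ #(Uq N φ v) ≤ z + s) ⊆
        (F.filter fun φ => ¬ Nice N L r b0 v φ) ∪
          (Ioc z (z + s)).biUnion fun z' =>
            F.filter fun φ => Nice N L r b0 v φ ∧ #(Uq N φ v) = z' := by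
      intro φ hφ
      rw [mem_filter] at hφ
      rw [mem_union, mem_biUnion]
      by_cases hn : Nice N L r b0 v φ
      · right
        exact ⟨#(Uq N φ v), mem_Ioc.mpr hφ.2, mem_filter.mpr ⟨hφ.1, hn, rfl⟩⟩
      · left
        exact mem_filter.mpr ⟨hφ.1, hn⟩
    have h1 := (card_le_card hsub).trans ((card_union_le _ _).trans
      (Nat.add_le_add_left card_biUnion_le _))
    have h2 : (#(F.filter fun φ => z < #(Uq N φ v) ∧ #(Uq N φ v) ≤ z + s) : ℝ) ≤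
        E + ∑ z' ∈ Ioc z (z + s),
          (#(F.filter fun φ => Nice N L r b0 v φ ∧ #(Uq N φ v) = z') : ℝ) := by
      exact_mod_cast h1
    have h3 : ∑ z' ∈ Ioc z (z + s),
          (#(F.filter fun φ => Nice N L r b0 v φ ∧ #(Uq N φ v) = z') : ℝ) ≤ s * M := by
      calc _ ≤ ∑ _z' ∈ Ioc z (z + s), M := by
            refine sum_le_sum fun z' hz' => ?_
            rw [mem_Ioc] at hz'
            exact hM z' hz'.1 (by omega)
        _ = s * M := by
            rw [sum_const, Nat.card_Ioc, nsmul_eq_mul]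
            congr 2
            omega
    linarith
  have hM0 : 0 ≤ M := by
    have := hM (z + 1) (by omega) (by omega)
    exact le_trans (by positivity) this
  have hE0 : (0 : ℝ) ≤ E := by positivity
  have hT2' : (T2 : ℝ) ≤ 2 * M + E := by
    have h1 : T2 ≤ #(F.filter fun φ => z < #(Uq N φ v) ∧ #(Uq N φ v) ≤ z + 2) := by
      refine card_le_card fun φ hφ => ?_
      rw [mem_filter] at hφ ⊢
      refine ⟨hφ.1, ?_⟩
      omega
    have h2 := hT 2 hq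
    have h3 : (T2 : ℝ) ≤ (#(F.filter fun φ => z < #(Uq N φ v) ∧ #(Uq N φ v) ≤ z + 2) : ℝ) := by
      exact_mod_cast h1
    push_cast at h2
    linarith
  have hq0 : (0 : ℝ) < q := by exact_mod_cast (by omega : 0 < q)
  have hq2 : (2 : ℝ) ≤ q := by exact_mod_cast hq
  have hc : ∀ s ∈ Icc 2 q, (#(Sc s) : ℝ) ≤ (q * M + E) / (4 * q ^ 2) := by
    intro s hs
    rw [mem_Icc] at hs
    have h1 : (4 * (q : ℝ) ^ 2) * #(Sc s) ≤ s * M + E :=
      le_trans (by exact_mod_cast s4 s hs.1 hs.2) (hT s hs.2)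
    rw [le_div_iff₀ (by positivity)]
    have h2 : (s : ℝ) * M ≤ q * M := mul_le_mul_of_nonneg_right (by exact_mod_cast hs.2) hM0
    linarith
  have hcs : ∑ s ∈ Icc 2 q, (#(Sc s) : ℝ) ≤ (q * M + E) / (4 * q) := by
    calc ∑ s ∈ Icc 2 q, (#(Sc s) : ℝ) ≤ ∑ _s ∈ Icc 2 q, (q * M + E) / (4 * q ^ 2) := sum_le_sum hc
      _ = ((q + 1 - 2 : ℕ) : ℝ) * ((q * M + E) / (4 * q ^ 2)) := by
          rw [sum_const, Nat.card_Icc, nsmul_eq_mul]
      _ ≤ q * ((q * M + E) / (4 * q ^ 2)) := by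
          refine mul_le_mul_of_nonneg_right ?_ (by positivity)
          exact_mod_cast (by omega : q + 1 - 2 ≤ q)
      _ = (q * M + E) / (4 * q) := by field_simp
  have r1 : (16 : ℝ) * #Sa1 ≤ T2 := by exact_mod_cast s1
  have r2 : (16 : ℝ) * #Sa2 ≤ T2 := by exact_mod_cast s2
  have r3 : (16 : ℝ) * #Sb ≤ T2 := by exact_mod_cast s3
  have r0 : (#(F.filter fun φ => Nice N L r b0 v φ ∧ #(Uq N φ v) = z) : ℝ) ≤
      #Sa1 + #Sa2 + #Sb + ∑ s ∈ Icc 2 q, (#(Sc s) : ℝ) := by exact_mod_cast hcard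
  have r4 : ((q : ℝ) * M + E) / (4 * q) ≤ M / 4 + E / 8 := by
    rw [div_le_iff₀ (by positivity)]
    nlinarith
  linarith

end Pool.Agent.Helper4.PC
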