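import Pool.Agent.Helper4.PC.Base

namespace Pool.Agent.Helper4.PC

open Finset

variable {V C : Type} [Fintype V] [DecidableEq V] [DecidableEq C]

/-- PIECE S2. `switch` with `mv φ` = pairs `(u, a)`, `u ∈ Bl N φ v`, `a ∈ Av N L φ u` (a Sigma type or
a `biUnion`; card `≥ (b+1) * m`), `f φ (u, a) = update φ u (some a)`, label `u ∈ N v`. `f φ (u, a) ∈ F` by `Om_update_some`
and closedness; its blank neighbours are `(Bl N φ v).erase u`. Injective: `φ = update ψ u none`, `a` is read off from `ψ u`. -/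
theorem bl_step {N : V → Finset V} {L : V → Finset C} {B : Set V} {F : Finset (V → Option C)}
    (hG : Gr N) (hF : Clo N L B F) (v : V) (hB : ∀ u ∈ N v, u ∈ B) (m b : ℕ) :
    #(F.filter fun φ => (∀ u ∈ N v, m ≤ #(Av N L φ u)) ∧ #(Bl N φ v) = b + 1) * ((b + 1) * m) ≤
      #(F.filter fun φ => #(Bl N φ v) = b) * #(N v) := by
  classical
  have hbl : ∀ (φ : V → Option C) (u : V) (a : C), u ∈ Bl N φ v →
      Bl N (Function.update φ u (some a)) v = (Bl N φ v).erase u := by
    intro φ u a hu
    ext w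
    unfold Bl
    rw [mem_erase, mem_filter, mem_filter]
    by_cases hw : w = u
    · subst hw
      simp
    · rw [Function.update_of_ne hw]
      exact ⟨fun h => ⟨hw, h⟩, fun h => h.2⟩
  refine switch (F.filter fun φ => (∀ u ∈ N v, m ≤ #(Av N L φ u)) ∧ #(Bl N φ v) = b + 1)
    (F.filter fun φ => #(Bl N φ v) = b)
    (fun φ => (Bl N φ v).sigma fun u => Av N L φ u) (fun _ => N v)
    (fun φ p => Function.update φ p.1 (some p.2)) (fun _ p => p.1) ((b + 1) * m) (#(N v))
    ?_ ?_ ?_ ?_ ?_
  · intro φ hφ p hp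
    rw [mem_filter] at hφ ⊢
    rw [mem_sigma] at hp
    have hpN : p.1 ∈ N v := (mem_filter.mp hp.1).1
    refine ⟨hF.clo φ hφ.1 _ (Om_update_some hG (hF.sub hφ.1) hp.2) ?_, ?_⟩
    · intro y hy
      refine Function.update_of_ne ?_ _ _
      rintro rfl
      exact hy (hB _ hpN)
    · rw [hbl φ p.1 p.2 hp.1, card_erase_of_mem hp.1, hφ.2.2]
      rfl
  · intro φ hφ p hp
    rw [mem_sigma] at hp
    exact (mem_filter.mp hp.1).1
  · rintro φ hφ ⟨u, a⟩ hp ψ hψ ⟨u', a'⟩ hp' h1 h2
    rw [mem_sigma] at hp hp'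
    dsimp only at h1 h2 hp hp'
    subst h2
    have e1 : φ u = none := (mem_filter.mp hp.1).2
    have e2 : ψ u = none := (mem_filter.mp hp'.1).2
    have e3 : (some a : Option C) = some a' := by
      have := congrFun h1 u
      rwa [Function.update_self, Function.update_self] at this
    have e4 : φ = ψ := by
      funext y
      by_cases hy : y = u
      · rw [hy, e1, e2]
      · have := congrFun h1 y
        rwa [Function.update_of_ne hy, Function.update_of_ne hy] at this
    exact ⟨e4, by rw [Option.some.inj e3]⟩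
  · intro φ hφ
    rw [mem_filter] at hφ
    rw [card_sigma]
    calc (b + 1) * m = ∑ _u ∈ Bl N φ v, m := by rw [sum_const, hφ.2.2, smul_eq_mul]
      _ ≤ ∑ u ∈ Bl N φ v, #(Av N L φ u) :=
        sum_le_sum fun u hu => hφ.2.1 u (mem_filter.mp hu).1
  · intro _ _
    exact le_rfl

end Pool.Agent.Helper4.PC
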