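import Pool.Agent.Helper4.PC.Base
import Pool.Agent.Helper4.PC.St.S2A

namespace Pool.Agent.Helper4.PC

open Finset

variable {V C : Type} [Fintype V] [DecidableEq V] [DecidableEq C]

/-- PIECE S2 (second part). Put `X b = #{φ ∈ F : nice, #Bl = b}`, `E = #{φ ∈ F : not nice}`,
nice = `∀ u ∈ N v, m ≤ #Av`. For `b + 1 ≥ b1`: `X (b+1) * 2 #(N v) ≤ X (b+1) * ((b+1) m) ≤ (X b + E) * #(N v)`, so
`2 X (b+1) ≤ X b + E` (if `N v = ∅` then `X (b+1) = 0`). Hence `X (b1 + j) ≤ #F / 2^j + E` (reals), so `2^b1 * X b ≤ #F + 2^b1 * E`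
for `b ≥ 2 b1`. Sum over the at most `#(N v) + 1` values `b ≤ #(N v)`. -/
theorem bl_tail {N : V → Finset V} {L : V → Finset C} {B : Set V} {F : Finset (V → Option C)}
    (hG : Gr N) (hF : Clo N L B F) (v : V) (hB : ∀ u ∈ N v, u ∈ B) (m b1 : ℕ)
    (hb : 2 * #(N v) ≤ b1 * m) :
    2 ^ b1 * #(F.filter fun φ => (∀ u ∈ N v, m ≤ #(Av N L φ u)) ∧ 2 * b1 ≤ #(Bl N φ v)) ≤
      (#(N v) + 1) * (#F + 2 ^ b1 * #(F.filter fun φ => ¬ ∀ u ∈ N v, m ≤ #(Av N L φ u))) := by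
  classical
  set E := #(F.filter fun φ => ¬ ∀ u ∈ N v, m ≤ #(Av N L φ u)) with hE
  set X : ℕ → ℕ := fun b =>
    #(F.filter fun φ => (∀ u ∈ N v, m ≤ #(Av N L φ u)) ∧ #(Bl N φ v) = b) with hX
  have step : ∀ b, b1 ≤ b + 1 → 2 * X (b + 1) ≤ X b + E := by
    intro b hb1
    have h1 : X (b + 1) * ((b + 1) * m) ≤ #(F.filter fun φ => #(Bl N φ v) = b) * #(N v) :=
      bl_step hG hF v hB m b
    have h2 : #(F.filter fun φ => #(Bl N φ v) = b) ≤ X b + E := by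
      refine le_trans (card_le_card ?_) (card_union_le
        (F.filter fun φ => (∀ u ∈ N v, m ≤ #(Av N L φ u)) ∧ #(Bl N φ v) = b)
        (F.filter fun φ => ¬ ∀ u ∈ N v, m ≤ #(Av N L φ u)))
      intro φ hφ
      rw [mem_filter] at hφ
      rw [mem_union, mem_filter, mem_filter]
      by_cases hn : ∀ u ∈ N v, m ≤ #(Av N L φ u)
      · left; exact ⟨hφ.1, hn, hφ.2⟩
      · right; exact ⟨hφ.1, hn⟩
    rcases Nat.eq_zero_or_pos #(N v) with h0 | h0
    · have h3 : X (b + 1) = 0 := by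
        rw [hX]
        dsimp only
        rw [card_eq_zero, filter_eq_empty_iff]
        rintro φ _ ⟨_, h4⟩
        have h5 : #(Bl N φ v) ≤ #(N v) := card_filter_le _ _
        omega
      rw [h3]
      omega
    · have h3 : b1 * m ≤ (b + 1) * m := Nat.mul_le_mul_right _ hb1
      have h4 : X (b + 1) * (2 * #(N v)) ≤ (X b + E) * #(N v) :=
        calc X (b + 1) * (2 * #(N v)) ≤ X (b + 1) * ((b + 1) * m) :=
              Nat.mul_le_mul_left _ (hb.trans h3)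
          _ ≤ #(F.filter fun φ => #(Bl N φ v) = b) * #(N v) := h1
          _ ≤ (X b + E) * #(N v) := Nat.mul_le_mul_right _ h2
      refine Nat.le_of_mul_le_mul_right ?_ h0
      calc 2 * X (b + 1) * #(N v) = X (b + 1) * (2 * #(N v)) := by ring
        _ ≤ _ := h4
  have pw : ∀ j, 2 ^ j * X (b1 + j) ≤ #F + 2 ^ j * E := by
    intro j
    induction j with
    | zero =>
      have : X b1 ≤ #F := card_filter_le _ _
      simp only [pow_zero, one_mul, Nat.add_zero]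
      omega
    | succ j ih =>
      have h1 := step (b1 + j) (by omega)
      have h2 : 2 ^ j * (2 * X (b1 + j + 1)) ≤ 2 ^ j * (X (b1 + j) + E) := Nat.mul_le_mul_left _ h1
      have h3 : 2 ^ (j + 1) * X (b1 + (j + 1)) = 2 ^ j * (2 * X (b1 + j + 1)) := by
        rw [pow_succ, ← Nat.add_assoc]; ring
      have h4 : 2 ^ (j + 1) * E = 2 ^ j * E + 2 ^ j * E := by rw [pow_succ]; ring
      rw [h3, h4]
      rw [Nat.mul_add] at h2
      omega
  have each : ∀ b ∈ (range (#(N v) + 1)).filter (fun b => 2 * b1 ≤ b),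
      2 ^ b1 * X b ≤ #F + 2 ^ b1 * E := by
    intro b hbm
    rw [mem_filter] at hbm
    obtain ⟨j, rfl⟩ : ∃ j, b = b1 + j := ⟨b - b1, by omega⟩
    have hj : b1 ≤ j := by omega
    have h1 := pw j
    rcases Nat.le_total (X (b1 + j)) E with h2 | h2
    · have := Nat.mul_le_mul_left (2 ^ b1) h2
      omega
    · obtain ⟨k, hk⟩ := Nat.exists_eq_add_of_le h2
      rw [hk] at h1 ⊢
      rw [Nat.mul_add] at h1 ⊢
      have h3 : 2 ^ b1 * k ≤ 2 ^ j * k :=
        Nat.mul_le_mul_right _ (Nat.pow_le_pow_right (by norm_num) hj)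
      omega
  have hsub : (F.filter fun φ => (∀ u ∈ N v, m ≤ #(Av N L φ u)) ∧ 2 * b1 ≤ #(Bl N φ v)) ⊆
      ((range (#(N v) + 1)).filter fun b => 2 * b1 ≤ b).biUnion
        fun b => F.filter fun φ => (∀ u ∈ N v, m ≤ #(Av N L φ u)) ∧ #(Bl N φ v) = b := by
    intro φ hφ
    rw [mem_filter] at hφ
    rw [mem_biUnion]
    refine ⟨#(Bl N φ v), ?_, ?_⟩
    · rw [mem_filter, mem_range]
      have h5 : #(Bl N φ v) ≤ #(N v) := card_filter_le _ _
      exact ⟨by omega, hφ.2.2⟩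
    · rw [mem_filter]
      exact ⟨hφ.1, hφ.2.1, rfl⟩
  have h1 := (card_le_card hsub).trans card_biUnion_le
  calc 2 ^ b1 * #(F.filter fun φ => (∀ u ∈ N v, m ≤ #(Av N L φ u)) ∧ 2 * b1 ≤ #(Bl N φ v))
      ≤ 2 ^ b1 * ∑ b ∈ (range (#(N v) + 1)).filter (fun b => 2 * b1 ≤ b), X b :=
        Nat.mul_le_mul_left _ h1
    _ = ∑ b ∈ (range (#(N v) + 1)).filter (fun b => 2 * b1 ≤ b), 2 ^ b1 * X b := by rw [mul_sum]
    _ ≤ ∑ _b ∈ (range (#(N v) + 1)).filter (fun b => 2 * b1 ≤ b), (#F + 2 ^ b1 * E) :=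
        sum_le_sum each
    _ = #((range (#(N v) + 1)).filter (fun b => 2 * b1 ≤ b)) * (#F + 2 ^ b1 * E) := by
        rw [sum_const, smul_eq_mul]
    _ ≤ (#(N v) + 1) * (#F + 2 ^ b1 * E) := by
      refine Nat.mul_le_mul_right _ ?_
      exact (card_filter_le _ _).trans (by simp)

end Pool.Agent.Helper4.PC
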