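import Pool.Agent.Helper4.PC.Base
import Pool.Agent.Helper4.PC.St.P2

namespace Pool.Agent.Helper4.PC

private theorem p1_div {a b : ℕ} (hb : 0 < b) (h : b ≤ a) : a ≤ 2 * b * (a / b) := by
  have h1 : 1 ≤ a / b := (Nat.one_le_div_iff hb).2 h
  have h2 := Nat.lt_mul_div_succ a hb
  have h3 : b * (a / b + 1) ≤ 2 * b * (a / b) := by nlinarith
  omega

/-- PIECE P1 (choice of the parameters, pure arithmetic in ℕ). Take `r = Nat.sqrt (d / 32)` (so `32 r^2 ≤ d < 32 (r+1)^2 ≤ 64 r^2`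
for large `d`), `b1 = 256 r`, `zmax = 1024 r`, `K = 2^20 * κ`, `t1 = d / (4 K)`, `t2 = t1 / (8 K)`, `q = 64 K`, `i = 512 r / q`,
`m = (r - 1) / 2`, `h = D / (2 κ)`, `R1 = d / 2`, `R3 = t1 / (16 q)`, `h3 = t2 / 2`. All inequalities hold for `d ≥ d0 κ`:
* `2 d ≤ 128 r^2 ≤ b1 * ((r+1)/2)`;
* `(2h + 4 t1 + zmax + 1) κ ≤ D + d / 2^20 + (1024 r + 1) κ ≤ 2 D`;
* `512 r + 1024 r + d/4 + d/2 ≤ d`;
* `q R3 ≤ t1/16`, `d/q = d/(64K)`, `K t2 ≤ t1/8`, `t1 ≥ d/(4K) - 1`;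
* `h ≥ D/(4κ)`, `m ≥ r/4`, so `K t h m ≥ 65536 t D r ≥ 16 (1024 r + 2) (t + 1) D` for `t = t1, t2 ≥ 1`;
* `16 (1024 r + 2) d ≤ (d/2) (t1/2)`;
* `4 q^2 (1024 r + s) d^(s-1) ≤ R3 h3^(s-1)`: `R3 ≥ c d`, `h3 ≥ c d` with `c = c(κ) > 0`, `s ≤ q` bounded, `r ≤ sqrt d`: enough `4 q^2 (1024 sqrt d + q) ≤ c^q d`;
* the last line is `final_bound q`. -/
theorem params (κ : ℕ) (hκ : 1 ≤ κ) : ∃ d0 : ℕ, ∀ d D : ℕ, d0 ≤ d → d ≤ D → D ≤ d ^ 8 →
    ∃ r b1 zmax i m K t1 t2 q h R1 R3 h3 : ℕ,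
      32 * r ^ 2 ≤ d ∧ 2 * d ≤ b1 * ((r + 1) / 2) ∧ 2 * m + 1 ≤ r ∧ t2 ≤ t1 ∧ 2 ≤ q ∧
      (2 * h + 4 * t1 + zmax + 1) * κ ≤ 2 * D ∧
      2 * b1 + zmax + K * t1 + R1 ≤ d ∧
      q * R3 + zmax + d / q + K * t2 ≤ t1 / 2 ∧
      zmax + h3 ≤ t2 ∧
      16 * ((zmax + 2) * (t1 + 1) * D) ≤ K * t1 * h * m ∧
      16 * ((zmax + 2) * (t2 + 1) * D) ≤ K * t2 * h * m ∧
      16 * ((zmax + 2) * d) ≤ R1 * (t1 / 2) ∧
      (∀ s, 2 ≤ s → s ≤ q → 4 * q ^ 2 * ((zmax + s) * d ^ (s - 1)) ≤ R3 * h3 ^ (s - 1)) ∧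
      2 * b1 + i * q ≤ zmax ∧
      ((1 + 4 * (b1 : ℝ)) * ((d + 2) * (2 * d * D) * (((r : ℝ) + 1) / 2 ^ r) + (d + 1) / 2 ^ b1) +
        2 * (b1 : ℝ) * (3 / 4) ^ i) * (D : ℝ) ^ 6 ≤ 1 := by
  obtain ⟨K, hK⟩ : ∃ K, K = 1048576 * κ := ⟨_, rfl⟩
  obtain ⟨q, hq⟩ : ∃ q, q = 64 * K := ⟨_, rfl⟩
  obtain ⟨Cc, hC⟩ : ∃ Cc, Cc = 16384 * K ^ 2 := ⟨_, rfl⟩
  have hK0 : 1048576 ≤ K := by omega
  have hq0 : 64 ≤ q := by omega
  have hC0 : 1 ≤ Cc := by
    rw [hC]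
    have : 1 ≤ K ^ 2 := Nat.one_le_pow _ _ (by omega)
    omega
  obtain ⟨d1, hd1⟩ := final_bound q (by omega)
  obtain ⟨R0, hR0⟩ : ∃ R0, R0 = 5000 * q ^ 2 * Cc ^ q := ⟨_, rfl⟩
  have hR0K : 67108864 * K ^ 2 ≤ R0 := by
    have h1 : Cc ≤ Cc ^ q := Nat.le_self_pow (by omega) Cc
    have h2 : 4096 ≤ q ^ 2 := by nlinarith
    calc 67108864 * K ^ 2 = 4096 * (16384 * K ^ 2) := by ring
      _ = 4096 * Cc := by rw [hC]
      _ ≤ 5000 * q ^ 2 * Cc ^ q := by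
        apply Nat.mul_le_mul _ h1
        omega
      _ = R0 := hR0.symm
  refine ⟨max d1 (32 * R0 ^ 2), fun d D hd hdD hD8 => ?_⟩
  have hdd1 : d1 ≤ d := le_trans (le_max_left _ _) hd
  have hdR : 32 * R0 ^ 2 ≤ d := le_trans (le_max_right _ _) hd
  obtain ⟨r, hr⟩ : ∃ r, r = Nat.sqrt (d / 32) := ⟨_, rfl⟩
  have hrR : R0 ≤ r := by
    rw [hr, Nat.le_sqrt']
    omega
  have hrd : 32 * r ^ 2 ≤ d := by
    have := Nat.sqrt_le' (d / 32)
    rw [← hr] at this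
    omega
  have hrd' : d < 32 * (r + 1) ^ 2 := by
    have := Nat.lt_succ_sqrt' (d / 32)
    rw [← hr, Nat.succ_eq_add_one] at this
    omega
  have hrK : 67108864 * K ^ 2 ≤ r := le_trans hR0K hrR
  have hK2 : K ≤ K ^ 2 := Nat.le_self_pow (by norm_num) K
  have hrK1 : 67108864 * K ≤ r := by omega
  have hr2 : 67108864 * K * r ≤ r ^ 2 := by
    rw [pow_two]
    exact Nat.mul_le_mul_right r hrK1
  have hr3 : 67108864 * K ^ 2 * r ≤ r ^ 2 := by
    rw [pow_two r]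
    exact Nat.mul_le_mul_right r hrK
  obtain ⟨t1, ht1⟩ : ∃ t1, t1 = d / (4 * K) := ⟨_, rfl⟩
  obtain ⟨t2, ht2⟩ : ∃ t2, t2 = t1 / (8 * K) := ⟨_, rfl⟩
  obtain ⟨R3, hR3⟩ : ∃ R3, R3 = t1 / (16 * q) := ⟨_, rfl⟩
  obtain ⟨h3, hh3⟩ : ∃ h3, h3 = t2 / 2 := ⟨_, rfl⟩
  obtain ⟨h, hh⟩ : ∃ h, h = D / (2 * κ) := ⟨_, rfl⟩
  obtain ⟨m, hm⟩ : ∃ m, m = (r - 1) / 2 := ⟨_, rfl⟩
  obtain ⟨R1, hR1⟩ : ∃ R1, R1 = d / 2 := ⟨_, rfl⟩
  -- sizes
  have hrr : 70368744177664 * r ≤ r ^ 2 := by nlinarith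
  have e1 : 4 * K * t1 ≤ d := by rw [ht1]; exact Nat.mul_div_le d (4 * K)
  have e2 : d ≤ 8 * K * t1 := by
    have := p1_div (a := d) (b := 4 * K) (by omega) (by nlinarith)
    rw [← ht1] at this
    calc d ≤ 2 * (4 * K) * t1 := this
      _ = 8 * K * t1 := by ring
  have e2' : d < 4 * K * (t1 + 1) := by
    rw [ht1]; exact Nat.lt_mul_div_succ d (by omega)
  have f1 : 134217728 * K * r ≤ t1 := by
    have : 8 * K * (134217728 * K * r) ≤ 8 * K * t1 := by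
      calc 8 * K * (134217728 * K * r) = 16 * (67108864 * K ^ 2 * r) := by ring
        _ ≤ 32 * r ^ 2 := by omega
        _ ≤ d := hrd
        _ ≤ 8 * K * t1 := e2
    exact Nat.le_of_mul_le_mul_left this (by omega)
  have f1' : 1048576 * 134217728 * r ≤ t1 := by
    refine le_trans ?_ f1
    calc 1048576 * 134217728 * r = 134217728 * 1048576 * r := by ring
      _ ≤ 134217728 * K * r := by
        apply Nat.mul_le_mul_right
        omega
  have g1 : 8 * K * t2 ≤ t1 := by rw [ht2]; exact Nat.mul_div_le t1 (8 * K)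
  have hr0 : 1 ≤ r := by omega
  have g2 : t1 ≤ 16 * K * t2 := by
    have : 8 * K ≤ t1 := by
      refine le_trans ?_ f1
      nlinarith
    have := p1_div (a := t1) (b := 8 * K) (by omega) this
    rw [← ht2] at this
    calc t1 ≤ 2 * (8 * K) * t2 := this
      _ = 16 * K * t2 := by ring
  have f2 : 8388608 * r ≤ t2 := by
    have : 16 * K * (8388608 * r) ≤ 16 * K * t2 := by
      calc 16 * K * (8388608 * r) = 134217728 * K * r := by ring
        _ ≤ t1 := f1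
        _ ≤ 16 * K * t2 := g2
    exact Nat.le_of_mul_le_mul_left this (by omega)
  have k1 : 2 * κ * h ≤ D := by rw [hh]; exact Nat.mul_div_le D (2 * κ)
  have hdr : r ≤ d := by nlinarith
  have k2 : D ≤ 4 * κ * h := by
    have := p1_div (a := D) (b := 2 * κ) (by omega) (by omega)
    rw [← hh] at this
    calc D ≤ 2 * (2 * κ) * h := this
      _ = 4 * κ * h := by ring
  have m1 : r ≤ 4 * m := by omega
  have m2 : 2 * m + 1 ≤ r := by omega
  have kx : ∀ t, 1 ≤ t → 16 * ((1024 * r + 2) * (t + 1) * D) ≤ K * t * h * m := by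
    intro t ht
    have h1 : D * r ≤ 16 * (κ * h * m) := by
      calc D * r ≤ (4 * κ * h) * (4 * m) := Nat.mul_le_mul k2 m1
        _ = 16 * (κ * h * m) := by ring
    calc 16 * ((1024 * r + 2) * (t + 1) * D) ≤ 16 * ((1026 * r) * (2 * t) * D) := by
          apply Nat.mul_le_mul_left
          apply Nat.mul_le_mul_right
          apply Nat.mul_le_mul <;> omega
      _ = 32832 * t * (D * r) := by ring
      _ ≤ 65536 * t * (D * r) := by
          apply Nat.mul_le_mul_right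
          apply Nat.mul_le_mul_right
          norm_num
      _ ≤ 65536 * t * (16 * (κ * h * m)) := Nat.mul_le_mul_left _ h1
      _ = K * t * h * m := by rw [hK]; ring
  have e3 : 16 * q * R3 ≤ t1 := by rw [hR3]; exact Nat.mul_div_le t1 (16 * q)
  have e4 : t1 ≤ 32 * q * R3 := by
    have : 16 * q ≤ t1 := by
      refine le_trans ?_ f1
      rw [hq]
      nlinarith
    have := p1_div (a := t1) (b := 16 * q) (by omega) this
    rw [← hR3] at this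
    calc t1 ≤ 2 * (16 * q) * R3 := this
      _ = 32 * q * R3 := by ring
  have e5 : 16 * (d / q) ≤ t1 + 1 := by
    have h1 : q * (d / q) ≤ d := Nat.mul_div_le d q
    have h2 : 4 * K * (16 * (d / q)) ≤ 4 * K * (t1 + 1) := by
      calc 4 * K * (16 * (d / q)) = q * (d / q) := by rw [hq]; ring
        _ ≤ d := h1
        _ ≤ 4 * K * (t1 + 1) := le_of_lt e2'
    exact Nat.le_of_mul_le_mul_left h2 (by omega)
  have c1 : d ≤ Cc * R3 := by
    calc d ≤ 8 * K * t1 := e2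
      _ ≤ 8 * K * (32 * q * R3) := Nat.mul_le_mul_left _ e4
      _ = Cc * R3 := by rw [hC, hq]; ring
  have c2 : d ≤ Cc * h3 := by
    have h1 : t2 ≤ 4 * h3 := by omega
    calc d ≤ 8 * K * t1 := e2
      _ ≤ 8 * K * (16 * K * t2) := Nat.mul_le_mul_left _ g2
      _ ≤ 8 * K * (16 * K * (4 * h3)) := Nat.mul_le_mul_left _ (Nat.mul_le_mul_left _ h1)
      _ = 512 * (K ^ 2 * h3) := by ring
      _ ≤ 16384 * (K ^ 2 * h3) := Nat.mul_le_mul_right _ (by norm_num)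
      _ = Cc * h3 := by rw [hC]; ring
  refine ⟨r, 256 * r, 1024 * r, 512 * r / q, m, K, t1, t2, q, h, R1, R3, h3, hrd, ?_, m2, ?_,
    by omega, ?_, ?_, ?_, ?_, kx t1 (by omega), kx t2 (by omega), ?_, ?_, ?_, ?_⟩
  · -- 2 d ≤ b1 * ((r+1)/2)
    have h1 : r ≤ 2 * ((r + 1) / 2) := by omega
    have h2 : 128 * r * r ≤ 256 * r * ((r + 1) / 2) := by
      calc 128 * r * r ≤ 128 * r * (2 * ((r + 1) / 2)) := Nat.mul_le_mul_left _ h1
        _ = 256 * r * ((r + 1) / 2) := by ring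
    nlinarith
  · -- t2 ≤ t1
    rw [ht2]; exact Nat.div_le_self _ _
  · -- (2 h + 4 t1 + zmax + 1) κ ≤ 2 D
    have h1 : 4 * t1 * κ * 1048576 ≤ d := by
      calc 4 * t1 * κ * 1048576 = 4 * K * t1 := by rw [hK]; ring
        _ ≤ d := e1
    have h2 : (1024 * r + 1) * κ * 2 ≤ d := by
      have h4 : κ * r ≤ K * r := Nat.mul_le_mul_right r (by omega)
      have h5 : κ ≤ κ * r := Nat.le_mul_of_pos_right κ hr0
      have h6 : (1024 * r + 1) * κ * 2 = 2048 * (κ * r) + 2 * κ := by ring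
      have h7 : 67108864 * K * r = 67108864 * (K * r) := by ring
      omega
    have h3 : (2 * h + 4 * t1 + 1024 * r + 1) * κ =
        2 * κ * h + 4 * t1 * κ + (1024 * r + 1) * κ := by ring
    omega
  · -- 2 b1 + zmax + K t1 + R1 ≤ d
    have h1 : 4 * K * t1 = 4 * (K * t1) := by ring
    omega
  · -- q R3 + zmax + d / q + K t2 ≤ t1 / 2
    have h1 : 16 * q * R3 = 16 * (q * R3) := by ring
    have h2 : 8 * K * t2 = 8 * (K * t2) := by ring
    omega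
  · -- zmax + h3 ≤ t2
    omega
  · -- 16 (zmax+2) d ≤ R1 (t1/2)
    have h1 : d ≤ 3 * R1 := by omega
    have h2 : 16 * (1024 * r + 2) * 3 ≤ t1 / 2 := by omega
    calc 16 * ((1024 * r + 2) * d) ≤ 16 * ((1024 * r + 2) * (3 * R1)) :=
          Nat.mul_le_mul_left _ (Nat.mul_le_mul_left _ h1)
      _ = R1 * (16 * (1024 * r + 2) * 3) := by ring
      _ ≤ R1 * (t1 / 2) := Nat.mul_le_mul_left _ h2
  · -- the s condition
    intro s hs hsq
    have hCs : 0 < Cc ^ s := Nat.pow_pos (by omega)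
    have h1 : d * d ^ (s - 1) ≤ (Cc * R3) * (Cc * h3) ^ (s - 1) :=
      Nat.mul_le_mul c1 (Nat.pow_le_pow_left c2 _)
    have h2 : (Cc * R3) * (Cc * h3) ^ (s - 1) = Cc ^ s * (R3 * h3 ^ (s - 1)) := by
      obtain ⟨s', rfl⟩ : ∃ s', s = s' + 1 := ⟨s - 1, by omega⟩
      rw [Nat.add_sub_cancel, mul_pow, pow_succ]
      ring
    have h3' : Cc ^ s ≤ Cc ^ q := Nat.pow_le_pow_right (by omega) hsq
    have h4 : 4 * q ^ 2 * (1024 * r + s) * Cc ^ s ≤ d := by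
      have h5 : q ≤ r := by
        have : q ≤ 67108864 * K := by omega
        omega
      calc 4 * q ^ 2 * (1024 * r + s) * Cc ^ s ≤ 4 * q ^ 2 * (1025 * r) * Cc ^ q := by
            apply Nat.mul_le_mul _ h3'
            apply Nat.mul_le_mul_left
            omega
        _ = (4100 * q ^ 2 * Cc ^ q) * r := by ring
        _ ≤ (5000 * q ^ 2 * Cc ^ q) * r := by
            apply Nat.mul_le_mul_right
            apply Nat.mul_le_mul_right
            apply Nat.mul_le_mul_right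
            norm_num
        _ = R0 * r := by rw [hR0]
        _ ≤ r * r := Nat.mul_le_mul_right _ hrR
        _ ≤ d := by nlinarith
    have h6 : Cc ^ s * (4 * q ^ 2 * ((1024 * r + s) * d ^ (s - 1))) ≤
        Cc ^ s * (R3 * h3 ^ (s - 1)) := by
      calc Cc ^ s * (4 * q ^ 2 * ((1024 * r + s) * d ^ (s - 1))) =
            (4 * q ^ 2 * (1024 * r + s) * Cc ^ s) * d ^ (s - 1) := by ring
        _ ≤ d * d ^ (s - 1) := Nat.mul_le_mul_right _ h4
        _ ≤ (Cc * R3) * (Cc * h3) ^ (s - 1) := h1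
        _ = Cc ^ s * (R3 * h3 ^ (s - 1)) := h2
    exact Nat.le_of_mul_le_mul_left h6 hCs
  · -- 2 b1 + i q ≤ zmax
    have := Nat.div_mul_le_self (512 * r) q
    omega
  · -- final bound
    have := hd1 d D hdd1 hD8
    rw [← hr] at this
    push_cast
    exact this

end Pool.Agent.Helper4.PC
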