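import Pool.Agent.Helper4.PC.Base
import Pool.Agent.Helper4.PC.St.L1
import Pool.Agent.Helper4.PC.St.P1
import Pool.Agent.Helper4.PC.St.R1
import Pool.Agent.Helper4.PC.St.LA

namespace Pool.Agent.Helper4.PC

open Finset

/-- PIECE LL (local lemma). Take the parameters of `params κ` for `d = #(N v)`. Put `b0 = 2 b1`, `E = #{¬ Nice}`. `level` (its hypothesis `hh`: multiply by `κ`
and use `(2h+4t1+zmax+1) κ ≤ 2 D` and `2 D + κ #(N v) ≤ 2 κ #(L u)`) and `rec_bound` give `#{Nice, #Uq = z} ≤ (3/4)^i #F + 2 E` for `z < b0`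
(`z + i q ≤ zmax`). If `#Uq ≤ #Bl` then `¬ Nice` or (`Nice` and `#Uq < b0`). So the left filter has at most
`E + b0 ((3/4)^i #F + 2 E)` elements; insert `not_nice` and the last inequality of `params`. -/
theorem local_lemma (κ : ℕ) (hκ : 1 ≤ κ) : ∃ d0 : ℕ, ∀ (V C : Type) [Fintype V] [DecidableEq V]
    [DecidableEq C] (N : V → Finset V) (L : V → Finset C) (B : Set V)
    (F : Finset (V → Option C)) (v : V) (D : ℕ), Gr N → Clo N L B F →
    (∀ x, #(N x) + 1 ≤ #(L x)) → d0 ≤ #(N v) → #(N v) ≤ D → D ≤ #(N v) ^ 8 →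
    (∀ u ∈ N v, #(N u) ≤ D ∧ 2 * D + κ * #(N v) ≤ 2 * κ * #(L u)) →
    (∀ u ∈ N v, #(N v) ≤ 4 * #(L u)) → (∀ u ∈ N v, ∀ w ∈ N u, #(N v) ≤ 4 * #(L w)) →
    (∀ u ∈ N v, u ∈ B) → (∀ u ∈ N v, ∀ w ∈ N u, w ∈ B) →
    (∀ u ∈ N v, ∀ w ∈ N u, ∀ y ∈ N w, y ∈ B) →
    #(F.filter fun φ => #(Uq N φ v) ≤ #(Bl N φ v)) * D ^ 6 ≤ #F := by
  obtain ⟨d0, hd0⟩ := params κ hκ
  refine ⟨max d0 1, ?_⟩
  intro V C _ _ _ N L B F v D hG hF hL hdv hvD hD8 hu h4u h4w hB1 hB2 hB3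
  have hd1 : 1 ≤ #(N v) := (le_max_right _ _).trans hdv
  obtain ⟨r, b1, zmax, i, m, K, t1, t2, q, h, R1, R3, h3, e1, e2, e3, e4, e5, e6, e7, e8, e9,
    e10, e11, e12, e13, e14, e15⟩ := hd0 #(N v) D ((le_max_left _ _).trans hdv) hvD hD8
  have hDpos : 0 < D := by omega
  have hh : ∀ u ∈ N v, 2 * h + 4 * t1 + #(N v) + zmax + 1 ≤ 2 * #(L u) := by
    intro u hu'
    have h1 := (hu u hu').2
    have h2 : κ * (2 * h + 4 * t1 + #(N v) + zmax + 1) ≤ κ * (2 * #(L u)) := by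
      nlinarith
    exact Nat.le_of_mul_le_mul_left h2 (by omega)
  set E : ℝ := (#(F.filter fun φ => ¬ Nice N L r (2 * b1) v φ) : ℝ) with hE
  set Q : ℕ → ℝ := fun z => (#(F.filter fun φ => Nice N L r (2 * b1) v φ ∧ #(Uq N φ v) = z) : ℝ)
    with hQ
  have hlev : ∀ z, z ≤ zmax → ∀ M, (∀ z', z < z' → z' ≤ z + q → Q z' ≤ M) →
      Q z ≤ 3 / 4 * M + E / 2 := by
    intro z hz M hM
    exact level hG hF v hB1 hB2 r (2 * b1) zmax m K t1 t2 q h D R1 R3 h3 (fun u _ => hL u)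
      (fun u hu' => (hu u hu').1) hh e3 e4 e5 hDpos (by omega) e7 e8 e9 e10 e11 e12 e13 z hz M hM
  have hrec := rec_bound Q #F E q zmax (fun z => by
    simp only [hQ]; exact_mod_cast card_filter_le _ _) (by positivity) hlev
  -- bound of the bad set
  have hbad : (#(F.filter fun φ => #(Uq N φ v) ≤ #(Bl N φ v)) : ℝ) ≤
      E + ∑ z ∈ range (2 * b1), Q z := by
    have hsub : (F.filter fun φ => #(Uq N φ v) ≤ #(Bl N φ v)) ⊆
        (F.filter fun φ => ¬ Nice N L r (2 * b1) v φ) ∪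
          (range (2 * b1)).biUnion fun z =>
            F.filter fun φ => Nice N L r (2 * b1) v φ ∧ #(Uq N φ v) = z := by
      intro φ hφ
      rw [mem_filter] at hφ
      rw [mem_union, mem_biUnion]
      by_cases hn : Nice N L r (2 * b1) v φ
      · right
        refine ⟨#(Uq N φ v), mem_range.mpr ?_, mem_filter.mpr ⟨hφ.1, hn, rfl⟩⟩
        have := hn.2
        omega
      · left
        exact mem_filter.mpr ⟨hφ.1, hn⟩
    have h1 := (card_le_card hsub).trans ((card_union_le _ _).trans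
      (Nat.add_le_add_left card_biUnion_le _))
    simp only [hE, hQ]
    exact_mod_cast h1
  have hsum : ∑ z ∈ range (2 * b1), Q z ≤ 2 * b1 * ((3 / 4) ^ i * #F + 2 * E) := by
    calc ∑ z ∈ range (2 * b1), Q z ≤ ∑ _z ∈ range (2 * b1), ((3 / 4) ^ i * (#F : ℝ) + 2 * E) := by
          refine sum_le_sum fun z hz => hrec i z ?_
          rw [mem_range] at hz
          omega
      _ = 2 * b1 * ((3 / 4) ^ i * #F + 2 * E) := by
          rw [sum_const, card_range, nsmul_eq_mul]; push_cast; ring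
  have hnn := not_nice hG hF v D r b1 hL hd1 hvD (fun u hu' => (hu u hu').1) h4u h4w hB1 hB2 hB3
    e1 e2
  rw [← hE] at hnn
  set G1 : ℝ := ((#(N v) + 2) * (2 * #(N v) * D) * (((r : ℝ) + 1) / 2 ^ r) +
    (#(N v) + 1) / 2 ^ b1) with hG1
  have hF0 : (0 : ℝ) ≤ #F := by positivity
  have hfin : (#(F.filter fun φ => #(Uq N φ v) ≤ #(Bl N φ v)) : ℝ) ≤
      ((1 + 4 * (b1 : ℝ)) * G1 + 2 * (b1 : ℝ) * (3 / 4) ^ i) * #F := by
    have hb : (0 : ℝ) ≤ b1 := by positivity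
    calc _ ≤ E + 2 * b1 * ((3 / 4) ^ i * #F + 2 * E) := by linarith
      _ = (1 + 4 * b1) * E + 2 * b1 * (3 / 4) ^ i * #F := by ring
      _ ≤ (1 + 4 * b1) * (G1 * #F) + 2 * b1 * (3 / 4) ^ i * #F := by
          have : (0 : ℝ) ≤ 1 + 4 * b1 := by positivity
          have := mul_le_mul_of_nonneg_left hnn this
          linarith
      _ = _ := by ring
  have hD6 : (0 : ℝ) ≤ (D : ℝ) ^ 6 := by positivity
  have : (#(F.filter fun φ => #(Uq N φ v) ≤ #(Bl N φ v)) : ℝ) * (D : ℝ) ^ 6 ≤ #F := by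
    calc _ ≤ (((1 + 4 * (b1 : ℝ)) * G1 + 2 * (b1 : ℝ) * (3 / 4) ^ i) * #F) * (D : ℝ) ^ 6 :=
          mul_le_mul_of_nonneg_right hfin hD6
      _ = (((1 + 4 * (b1 : ℝ)) * G1 + 2 * (b1 : ℝ) * (3 / 4) ^ i) * (D : ℝ) ^ 6) * #F := by ring
      _ ≤ 1 * #F := mul_le_mul_of_nonneg_right e15 hF0
      _ = #F := one_mul _
  exact_mod_cast this

end Pool.Agent.Helper4.PC
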