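import Pool.Agent.Helper4.PC.Base
namespace Pool.Agent.Helper4.PC

open Finset

variable {V C : Type} [Fintype V] [DecidableEq V] [DecidableEq C]

/-- PIECE M1 (small degree step). `switch`. Moves of `φ`: `(u, a)`, `u ∈ N v`, `u ∉ Uq N φ v`, `a ∈ Av N L φ u`, `some a ∉ (N v).image φ`.
There are at least `#(N v) - i` such `u` (the elements of `Uq` have different colours, so `#Uq ≤ i`) and at least `m - #(N v)` choices of `a`.
`f = update φ u (some a)`, label `(u, φ u)`, labels of `ψ`: `(N v) ×ˢ (insert none ((N v).image ψ))`, card `≤ #(N v) * (#(N v) + 1)`.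
The number of colours on `N v` goes up by exactly one (`u` was blank or its colour is repeated; then its old colour is still on `N v`). -/
theorem small_step {N : V → Finset V} {L : V → Finset C} {B : Set V} {F : Finset (V → Option C)}
    (hG : Gr N) (hF : Clo N L B F) (v : V) (hB1 : ∀ u ∈ N v, u ∈ B) (m i : ℕ) :
    #(F.filter fun φ => (∀ u ∈ N v, m ≤ #(Av N L φ u)) ∧
        #(((N v).image φ).erase none) = i) * ((#(N v) - i) * (m - #(N v))) ≤
      #(F.filter fun φ => #(((N v).image φ).erase none) = i + 1) *
        (#(N v) * (#(N v) + 1)) := by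
  -- a coloured neighbour outside `Uq` has a partner of the same colour
  have hpart : ∀ φ : V → Option C, ∀ u ∈ N v, u ∉ Uq N φ v → φ u ≠ none →
      ∃ w ∈ N v, w ≠ u ∧ φ w = φ u := by
    intro φ u hu hU hn
    by_contra hcon
    push Not at hcon
    apply hU
    rw [Uq, mem_filter]
    refine ⟨hu, hn, fun w hw hwu => ?_⟩
    by_contra hne
    exact hcon w hw hne hwu
  refine switch
    (mv := fun φ => ((N v).filter fun u => u ∉ Uq N φ v).sigma
      (fun u => (Av N L φ u).filter fun a => some a ∉ (N v).image φ))
    (lb := fun ψ => (N v) ×ˢ (insert none ((N v).image ψ)))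
    (f := fun φ (p : (_ : V) × C) => Function.update φ p.1 (some p.2))
    (g := fun φ p => (p.1, φ p.1)) _ _ _ _ ?_ ?_ ?_ ?_ ?_
  · rintro φ hφ ⟨u, a⟩ hp
    obtain ⟨hu, ha⟩ := mem_sigma.1 hp
    obtain ⟨hφF, _, hi⟩ := mem_filter.1 hφ
    obtain ⟨huN, hU⟩ := mem_filter.1 hu
    obtain ⟨haA, haI⟩ := mem_filter.1 ha
    simp only at huN hU haA haI ⊢
    rw [mem_filter]
    refine ⟨?_, ?_⟩
    · refine hF.clo φ hφF _ (Om_update_some hG (hF.sub hφF) haA) ?_
      intro x hx
      rw [Function.update_of_ne]
      rintro rfl
      exact hx (hB1 _ huN)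
    · have key : ((N v).image (Function.update φ u (some a))).erase none =
          insert (some a) (((N v).image φ).erase none) := by
        ext c
        rw [mem_erase, mem_image, mem_insert, mem_erase, mem_image]
        constructor
        · rintro ⟨hc, w, hw, rfl⟩
          by_cases hwu : w = u
          · subst hwu
            left; rw [Function.update_self]
          · rw [Function.update_of_ne hwu] at hc ⊢
            exact Or.inr ⟨hc, w, hw, rfl⟩
        · rintro (rfl | ⟨hc, w, hw, rfl⟩)
          · exact ⟨by simp, u, huN, Function.update_self _ _ _⟩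
          · refine ⟨hc, ?_⟩
            by_cases hwu : w = u
            · subst hwu
              obtain ⟨w', hw', hne, hwe⟩ := hpart φ w huN hU hc
              exact ⟨w', hw', by rw [Function.update_of_ne hne, hwe]⟩
            · exact ⟨w, hw, by rw [Function.update_of_ne hwu]⟩
      rw [key, card_insert_of_notMem, hi]
      intro h
      exact haI (mem_of_mem_erase h)
  · rintro φ hφ ⟨u, a⟩ hp
    obtain ⟨hu, ha⟩ := mem_sigma.1 hp
    obtain ⟨huN, hU⟩ := mem_filter.1 hu
    simp only at huN hU ⊢
    rw [mem_product, mem_insert, mem_image]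
    refine ⟨huN, ?_⟩
    by_cases hn : φ u = none
    · exact Or.inl hn
    · obtain ⟨w, hw, hne, hwe⟩ := hpart φ u huN hU hn
      exact Or.inr ⟨w, hw, by rw [Function.update_of_ne hne, hwe]⟩
  · rintro φ hφ ⟨u, a⟩ hp φ' hφ' ⟨u', a'⟩ hp' h1 h2
    simp only [Prod.mk.injEq] at h1 h2
    obtain ⟨rfl, h2⟩ := h2
    have ha : some a = some a' := by
      have := congrFun h1 u
      rwa [Function.update_self, Function.update_self] at this
    have hφφ : φ = φ' := by
      funext x
      by_cases hx : x = u
      · rw [hx]; exact h2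
      · have := congrFun h1 x
        rwa [Function.update_of_ne hx, Function.update_of_ne hx] at this
    refine ⟨hφφ, ?_⟩
    rw [Option.some.inj ha]
  · intro φ hφ
    obtain ⟨hφF, hm, hi⟩ := mem_filter.1 hφ
    rw [card_sigma]
    have hUq : #(Uq N φ v) ≤ i := by
      rw [← hi]
      refine card_le_card_of_injOn φ ?_ ?_
      · intro u hu
        have hu' := mem_filter.1 (mem_coe.1 hu)
        rw [mem_coe, mem_erase, mem_image]
        exact ⟨hu'.2.1, u, hu'.1, rfl⟩
      · intro u hu u' hu' h
        have h1 := mem_filter.1 (mem_coe.1 hu)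
        have h2 := mem_filter.1 (mem_coe.1 hu')
        exact h2.2.2 u h1.1 h
    have hcardU : #(N v) - i ≤ #((N v).filter fun u => u ∉ Uq N φ v) := by
      have h1 := card_filter_add_card_filter_not (s := N v) (fun u => u ∈ Uq N φ v)
      have h2 : #((N v).filter fun u => u ∈ Uq N φ v) ≤ #(Uq N φ v) := by
        apply card_le_card
        intro u hu
        exact (mem_filter.1 hu).2
      omega
    have hav : ∀ u ∈ (N v).filter fun u => u ∉ Uq N φ v,
        m - #(N v) ≤ #((Av N L φ u).filter fun a => some a ∉ (N v).image φ) := by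
      intro u hu
      have huN := (mem_filter.1 hu).1
      have h1 := card_filter_add_card_filter_not (s := Av N L φ u)
        (fun a => some a ∈ (N v).image φ)
      have h2 : #((Av N L φ u).filter fun a => some a ∈ (N v).image φ) ≤ #(N v) := by
        refine le_trans ?_ (card_image_le (s := N v) (f := φ))
        refine card_le_card_of_injOn some ?_ ?_
        · intro a ha
          exact (mem_filter.1 (mem_coe.1 ha)).2
        · intro a _ b _ h
          exact Option.some.inj h
      have h3 := hm u huN
      omega
    calc (#(N v) - i) * (m - #(N v))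
        ≤ #((N v).filter fun u => u ∉ Uq N φ v) * (m - #(N v)) := Nat.mul_le_mul_right _ hcardU
      _ = ∑ _u ∈ (N v).filter fun u => u ∉ Uq N φ v, (m - #(N v)) := by
          rw [sum_const, smul_eq_mul]
      _ ≤ _ := sum_le_sum hav
  · intro ψ _
    rw [card_product]
    refine Nat.mul_le_mul_left _ ?_
    exact (card_insert_le _ _).trans (Nat.add_le_add_right card_image_le 1)

end Pool.Agent.Helper4.PC
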