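import Pool.Agent.Helper4.PC.Base
import Pool.Agent.Helper4.PC.St.M1
import Pool.Agent.Helper4.PC.St.A2
import Pool.Agent.Helper4.PC.St.S1B
namespace Pool.Agent.Helper4.PC

open Finset

variable {V C : Type} [Fintype V] [DecidableEq V] [DecidableEq C]

/-- the recursion -/
private theorem rec_bound (Xc : ℕ → ℝ) (d : ℕ) (E F X : ℝ) (hE : 0 ≤ E) (hX0 : 0 ≤ X)
    (hX : X ≤ 1 / 2) (h0 : Xc d ≤ F)
    (hstep : ∀ j, j + 1 ≤ d → Xc (d - (j + 1)) ≤ (Xc (d - j) + E) * X) :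
    ∀ j, j ≤ d → Xc (d - j) ≤ X ^ j * F + E := by
  intro j
  induction j with
  | zero => intro _; rw [Nat.sub_zero, pow_zero, one_mul]; linarith
  | succ j ih =>
    intro hj
    have h1 := hstep j hj
    have h2 := ih (by omega)
    have h3 : (Xc (d - j) + E) * X ≤ (X ^ j * F + E + E) * X :=
      mul_le_mul_of_nonneg_right (by linarith) hX0
    have h4 : (X ^ j * F + E + E) * X = X ^ (j + 1) * F + (2 * X) * E := by ring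
    have h5 : (2 * X) * E ≤ 1 * E := mul_le_mul_of_nonneg_right (by linarith) hE
    linarith

/-- eventually exponential beats polynomial -/
private theorem exp_ev : ∃ r0 : ℕ, ∀ r : ℕ, r0 ≤ r →
    (2 : ℝ) ^ 17 * ((r : ℝ) + 1) ^ 11 ≤ 2 ^ r := by
  have h := tendsto_pow_const_div_const_pow_of_one_lt 11 (r := (2 : ℝ)) (by norm_num)
  have h2 : ∀ᶠ n : ℕ in Filter.atTop, (n : ℝ) ^ 11 / 2 ^ n < 1 / (2 ^ 17 * 2) := by
    apply h.eventually_lt_const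
    positivity
  obtain ⟨n0, hn0⟩ := Filter.eventually_atTop.1 h2
  refine ⟨n0, fun r hr => ?_⟩
  have h3 := hn0 (r + 1) (by omega)
  push_cast at h3
  rw [div_lt_div_iff₀ (by positivity) (by positivity)] at h3
  have h4 : (2 : ℝ) ^ (r + 1) = 2 ^ r * 2 := pow_succ _ _
  rw [h4] at h3
  nlinarith [h3]

private theorem aux1 {x : ℝ} (hx : 1 ≤ x) : x * (x + 1) ≤ 2 * x ^ 2 := by nlinarith

private theorem aux2 {x : ℝ} (hx : 0 ≤ x) (hx2 : x ≤ 63) : 4 * (x * (x + 1)) ≤ 2 ^ 14 := by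
  nlinarith

/-- the numerical estimate -/
private theorem num_bound : ∃ r0 : ℕ, ∀ r d Δ : ℕ, r0 ≤ r → Δ + 1 ≤ 8 * (r + 1) ^ 2 →
    17 ≤ d → d ^ 8 ≤ Δ → d < (r + 1) / 2 ∧ ∃ X : ℝ, 0 ≤ X ∧ X ≤ 1 / 2 ∧
      (d : ℝ) * (d + 1) ≤ X * (((r + 1) / 2 - d : ℕ) : ℝ) ∧
      (∀ j : ℕ, d ≤ 2 * j → 32 * (Δ : ℝ) ^ 4 * ((d + 1) * X ^ j) ≤ 1) ∧
      32 * (Δ : ℝ) ^ 4 * ((d + 2) * (d * (r + 1))) ≤ 2 ^ r := by
  obtain ⟨r1, hr1⟩ := exp_ev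
  refine ⟨r1 + 2 ^ 200, fun r d Δ hr hΔ hd hdΔ => ?_⟩
  set R : ℕ := r + 1 with hR
  have hRbig : 2 ^ 200 ≤ R := by omega
  have hR1 : (2 : ℝ) ^ 200 ≤ (R : ℝ) := by exact_mod_cast hRbig
  have hRpos : (0 : ℝ) < R := lt_of_lt_of_le (by positivity) hR1
  have hΔ8 : Δ ≤ 8 * R ^ 2 := by omega
  have hd8 : d ^ 8 ≤ 8 * R ^ 2 := hdΔ.trans hΔ8
  -- `8 d ≤ R`
  have h8d : 8 * d ≤ R := by
    by_contra hc
    push Not at hc
    have h1 : R ^ 8 ≤ (8 * d) ^ 8 := Nat.pow_le_pow_left hc.le 8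
    have h2 : (8 * d) ^ 8 = 8 ^ 8 * d ^ 8 := mul_pow _ _ _
    have h3 : R ^ 8 ≤ 8 ^ 8 * (8 * R ^ 2) := by
      rw [h2] at h1
      exact h1.trans (Nat.mul_le_mul_left _ hd8)
    have h4 : R ^ 8 = R ^ 6 * R ^ 2 := by ring
    have h5 : (64 : ℕ) ^ 6 ≤ R ^ 6 := Nat.pow_le_pow_left (by omega) 6
    have h6 : 0 < R ^ 2 := by positivity
    have h7 : (64 : ℕ) ^ 6 * R ^ 2 ≤ R ^ 6 * R ^ 2 := Nat.mul_le_mul_right _ h5
    rw [← h4] at h7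
    have h8 : (64 : ℕ) ^ 6 * R ^ 2 ≤ 8 ^ 9 * R ^ 2 := by
      calc (64 : ℕ) ^ 6 * R ^ 2 ≤ R ^ 8 := h7
        _ ≤ 8 ^ 8 * (8 * R ^ 2) := h3
        _ = 8 ^ 9 * R ^ 2 := by ring
    have h9 := Nat.le_of_mul_le_mul_right h8 h6
    norm_num at h9
  have hlt : d < R / 2 := by omega
  have hm : R ≤ 4 * (R / 2 - d) := by omega
  have hmR : (R : ℝ) ≤ 4 * ((R / 2 - d : ℕ) : ℝ) := by exact_mod_cast hm
  have hmpos : (0 : ℝ) < ((R / 2 - d : ℕ) : ℝ) := by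
    have : 0 < R / 2 - d := by omega
    exact_mod_cast this
  have hΔR : (Δ : ℝ) ≤ 8 * (R : ℝ) ^ 2 := by exact_mod_cast hΔ8
  have hΔ4 : (Δ : ℝ) ^ 4 ≤ 8 ^ 4 * (R : ℝ) ^ 8 := by
    calc (Δ : ℝ) ^ 4 ≤ (8 * (R : ℝ) ^ 2) ^ 4 := pow_le_pow_left₀ (by positivity) hΔR 4
      _ = 8 ^ 4 * (R : ℝ) ^ 8 := by ring
  have hd1 : (1 : ℝ) ≤ d := by exact_mod_cast (show 1 ≤ d by omega)
  have hdR : (8 : ℝ) * d ≤ R := by exact_mod_cast h8d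
  -- `16 d^2 ≤ R`
  have h16 : 16 * d ^ 2 ≤ R := by
    by_contra hc
    push Not at hc
    have h1 : R ^ 4 ≤ (16 * d ^ 2) ^ 4 := Nat.pow_le_pow_left hc.le 4
    have h2 : (16 * d ^ 2) ^ 4 = 16 ^ 4 * d ^ 8 := by ring
    rw [h2] at h1
    have h3 : R ^ 4 ≤ 16 ^ 4 * (8 * R ^ 2) := h1.trans (Nat.mul_le_mul_left _ hd8)
    have h4 : R ^ 4 = R ^ 2 * R ^ 2 := by ring
    have h5 : (2 ^ 200 : ℕ) ^ 2 ≤ R ^ 2 := Nat.pow_le_pow_left hRbig 2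
    have h6 : 0 < R ^ 2 := by positivity
    have h7 : (2 ^ 200 : ℕ) ^ 2 * R ^ 2 ≤ 16 ^ 4 * 8 * R ^ 2 := by
      calc (2 ^ 200 : ℕ) ^ 2 * R ^ 2 ≤ R ^ 2 * R ^ 2 := Nat.mul_le_mul_right _ h5
        _ = R ^ 4 := h4.symm
        _ ≤ 16 ^ 4 * (8 * R ^ 2) := h3
        _ = 16 ^ 4 * 8 * R ^ 2 := by ring
    have h9 := Nat.le_of_mul_le_mul_right h7 h6
    norm_num at h9
  have h16R : (16 : ℝ) * (d : ℝ) ^ 2 ≤ R := by exact_mod_cast h16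
  have hdd : (d : ℝ) * (d + 1) ≤ 2 * (d : ℝ) ^ 2 := aux1 hd1
  have hX0 : (0 : ℝ) ≤ 4 * ((d : ℝ) * (d + 1)) / R := by positivity
  have hXh : 4 * ((d : ℝ) * (d + 1)) / R ≤ 1 / 2 := by
    rw [div_le_iff₀ hRpos]
    linarith
  have hX1 : 4 * ((d : ℝ) * (d + 1)) / R ≤ 1 := hXh.trans (by norm_num)
  refine ⟨hlt, 4 * ((d : ℝ) * (d + 1)) / R, hX0, hXh, ?_, ?_, ?_⟩
  · rw [div_mul_eq_mul_div, le_div_iff₀ hRpos]
    have h1 : (d : ℝ) * (d + 1) * R ≤ (d : ℝ) * (d + 1) * (4 * ((R / 2 - d : ℕ) : ℝ)) :=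
      mul_le_mul_of_nonneg_left hmR (by positivity)
    linarith
  · intro j hj
    by_cases h63 : d ≤ 63
    · have hj9 : 9 ≤ j := by omega
      have h1 : (4 * ((d : ℝ) * (d + 1)) / R) ^ j ≤ (4 * ((d : ℝ) * (d + 1)) / R) ^ 9 :=
        pow_le_pow_of_le_one hX0 hX1 hj9
      have hdle : (d : ℝ) ≤ 63 := by exact_mod_cast h63
      have h2 : 4 * ((d : ℝ) * (d + 1)) / R ≤ 2 ^ 14 / R := by
        exact div_le_div_of_nonneg_right (aux2 (by positivity) hdle) hRpos.le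
      have h3 : (4 * ((d : ℝ) * (d + 1)) / R) ^ 9 ≤ (2 ^ 14 / (R : ℝ)) ^ 9 :=
        pow_le_pow_left₀ hX0 h2 9
      have h4 : 32 * (Δ : ℝ) ^ 4 * ((d + 1) * (4 * ((d : ℝ) * (d + 1)) / R) ^ j) ≤
          32 * (8 ^ 4 * (R : ℝ) ^ 8) * (64 * (2 ^ 14 / (R : ℝ)) ^ 9) := by
        have h5 : (d : ℝ) + 1 ≤ 64 := by linarith
        have h6 := h1.trans h3
        have h7 : (0 : ℝ) ≤ (4 * ((d : ℝ) * (d + 1)) / R) ^ j := pow_nonneg hX0 j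
        gcongr
      refine h4.trans ?_
      have h5 : 32 * (8 ^ 4 * (R : ℝ) ^ 8) * (64 * (2 ^ 14 / (R : ℝ)) ^ 9) =
          2 ^ 149 * ((R : ℝ) ^ 8 / (R : ℝ) ^ 9) := by
        rw [div_pow]; ring
      rw [h5]
      have h6 : (R : ℝ) ^ 8 / (R : ℝ) ^ 9 = 1 / R := by
        rw [pow_succ (R : ℝ) 8]
        field_simp
      rw [h6, mul_one_div, div_le_one hRpos]
      exact le_trans (by norm_num) hR1
    · have hj32 : 32 ≤ j := by omega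
      have h1 : (4 * ((d : ℝ) * (d + 1)) / R) ^ j ≤ (4 * ((d : ℝ) * (d + 1)) / R) ^ 32 :=
        pow_le_pow_of_le_one hX0 hX1 hj32
      have h2 : 4 * ((d : ℝ) * (d + 1)) / R ≤ 8 * (d : ℝ) ^ 2 / R := by
        apply div_le_div_of_nonneg_right _ hRpos.le
        linarith
      have hd8R : (d : ℝ) ^ 8 ≤ 8 * (R : ℝ) ^ 2 := by exact_mod_cast hd8
      have h3 : (4 * ((d : ℝ) * (d + 1)) / R) ^ 4 ≤ 2 ^ 15 * ((R : ℝ) ^ 2 / (R : ℝ) ^ 4) := by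
        calc (4 * ((d : ℝ) * (d + 1)) / R) ^ 4 ≤ (8 * (d : ℝ) ^ 2 / R) ^ 4 :=
              pow_le_pow_left₀ hX0 h2 4
          _ = 8 ^ 4 * (d : ℝ) ^ 8 / (R : ℝ) ^ 4 := by rw [div_pow]; ring
          _ ≤ 8 ^ 4 * (8 * (R : ℝ) ^ 2) / (R : ℝ) ^ 4 := by
              apply div_le_div_of_nonneg_right _ (by positivity)
              exact mul_le_mul_of_nonneg_left hd8R (by norm_num)
          _ = 2 ^ 15 * ((R : ℝ) ^ 2 / (R : ℝ) ^ 4) := by ring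
      have h3' : (R : ℝ) ^ 2 / (R : ℝ) ^ 4 = 1 / (R : ℝ) ^ 2 := by
        rw [show (R : ℝ) ^ 4 = (R : ℝ) ^ 2 * (R : ℝ) ^ 2 by ring]
        field_simp
      rw [h3', mul_one_div] at h3
      have h4 : (4 * ((d : ℝ) * (d + 1)) / R) ^ 32 ≤ (2 ^ 15 / (R : ℝ) ^ 2) ^ 8 := by
        rw [show (32 : ℕ) = 4 * 8 from rfl, pow_mul]
        exact pow_le_pow_left₀ (by positivity) h3 8
      have h5 : (d : ℝ) + 1 ≤ R := by linarith
      have h6 : 32 * (Δ : ℝ) ^ 4 * ((d + 1) * (4 * ((d : ℝ) * (d + 1)) / R) ^ j) ≤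
          32 * (8 ^ 4 * (R : ℝ) ^ 8) * (R * (2 ^ 15 / (R : ℝ) ^ 2) ^ 8) := by
        have h7 := h1.trans h4
        have h8 : (0 : ℝ) ≤ (4 * ((d : ℝ) * (d + 1)) / R) ^ j := pow_nonneg hX0 j
        gcongr
      refine h6.trans ?_
      have h7 : 32 * (8 ^ 4 * (R : ℝ) ^ 8) * (R * (2 ^ 15 / (R : ℝ) ^ 2) ^ 8) =
          2 ^ 137 / (R : ℝ) ^ 7 := by
        rw [div_pow]
        field_simp
        norm_num
      rw [h7, div_le_one (by positivity)]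
      calc (2 : ℝ) ^ 137 ≤ (2 ^ 200) ^ 7 := by norm_num
        _ ≤ (R : ℝ) ^ 7 := pow_le_pow_left₀ (by positivity) hR1 7
  · have h1 := hr1 r (by omega)
    have h2 : (R : ℝ) = (r : ℝ) + 1 := by rw [hR]; push_cast; ring
    rw [← h2] at h1 ⊢
    refine le_trans ?_ h1
    have hd17 : (17 : ℝ) ≤ d := by exact_mod_cast hd
    have h3 : (d : ℝ) + 2 ≤ R := by linarith
    have h4 : (d : ℝ) ≤ R := by linarith
    calc 32 * (Δ : ℝ) ^ 4 * ((d + 2) * (d * R)) ≤ 32 * (8 ^ 4 * (R : ℝ) ^ 8) * (R * (R * R)) := by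
          gcongr
      _ = 2 ^ 17 * (R : ℝ) ^ 11 := by ring

/-- PIECE M2 (small degrees). `d = #(N v)`, `r = Nat.sqrt ((Δ+1)/8)`, `m = (r+1)/2`. By `av_tail` for `u ∈ N v` the part `E` of `F` where some
`u ∈ N v` has `2 #(Av u) ≤ r` satisfies `#E ≤ d (r+1)/2^r #F`. Put `Y j = #{φ ∈ F : ∀ u ∈ N v, m ≤ #(Av u), number of colours on N v = d - j}`.
`small_step`: `Y j * (j (m - d)) ≤ (Y (j-1) + #E) d (d+1)`. With `X = d (d+1) / (m - d)` (`X ≤ 1/2` for large Δ, as `d^8 ≤ Δ`):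
`Y j ≤ (X/j) (Y (j-1) + #E)`, so `Y j ≤ X^j / j! #F + #E` for all `j`. If `#Uq ≤ #Bl` then by `col_card` the number of colours is `≤ d/2`, i.e.
`j ≥ ceil(d/2)`, so `j ≥ 9` if `17 ≤ d ≤ 63` and `j ≥ 32` if `d ≥ 64`. In the first case `X ≤ 4032/(m-63) ≤ c Δ^(-1/2)` so `X^9 ≤ c' Δ^(-9/2)`; in the second
`X ≤ c Δ^(-1/4)` (`d^2 ≤ Δ^(1/4)`), `X^32 ≤ c' Δ^(-8)`. Sum over `j ≤ d`. -/
theorem small_local : ∃ Δ0 : ℕ, ∀ (V C : Type) [Fintype V] [DecidableEq V]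
    [DecidableEq C] (N : V → Finset V) (L : V → Finset C) (B : Set V)
    (F : Finset (V → Option C)) (v : V) (Δ : ℕ), Gr N → Clo N L B F → Δ0 ≤ Δ →
    (∀ x, #(N x) + 1 ≤ #(L x)) → 17 ≤ #(N v) → #(N v) ^ 8 ≤ Δ →
    (∀ u ∈ N v, Δ + 1 ≤ #(L u)) →
    (∀ u ∈ N v, u ∈ B) → (∀ u ∈ N v, ∀ w ∈ N u, w ∈ B) →
    #(F.filter fun φ => #(Uq N φ v) ≤ #(Bl N φ v)) * (16 * Δ ^ 4) ≤ #F := by
  obtain ⟨r0, hr0⟩ := num_bound
  refine ⟨8 * r0 ^ 2, ?_⟩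
  intro V C _ _ _ N L B F v Δ hG hF hΔ0 hL hd17 hd8 hLu hB1 hB2
  set d : ℕ := #(N v) with hd
  set r : ℕ := Nat.sqrt ((Δ + 1) / 8) with hr
  set m : ℕ := (r + 1) / 2 with hm
  have hrr0 : r0 ≤ r := by
    rw [hr, Nat.le_sqrt']
    omega
  have hr8 : 8 * r ^ 2 ≤ Δ + 1 := by
    have h1 := Nat.sqrt_le' ((Δ + 1) / 8)
    rw [← hr] at h1
    omega
  have hΔr : Δ + 1 ≤ 8 * (r + 1) ^ 2 := by
    have h1 := Nat.lt_succ_sqrt' ((Δ + 1) / 8)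
    rw [← hr] at h1
    have h2 : (Δ + 1) / 8 < (r + 1) ^ 2 := h1
    omega
  obtain ⟨hdm, X, hX0, hX12, hXd, hXj, hexp⟩ := hr0 r d Δ hrr0 hΔr hd17 hd8
  -- the exceptional set
  set E := F.filter (fun φ => ∃ u ∈ N v, 2 * #(Av N L φ u) ≤ r) with hE
  have hEc : 2 ^ r * #E ≤ d * (r + 1) * #F := by
    have h1 : E ⊆ (N v).biUnion (fun u => F.filter fun φ => 2 * #(Av N L φ u) ≤ r) := by
      intro φ hφ
      rw [hE, mem_filter] at hφ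
      obtain ⟨hφF, u, hu, h2⟩ := hφ
      rw [mem_biUnion]
      exact ⟨u, hu, mem_filter.2 ⟨hφF, h2⟩⟩
    calc 2 ^ r * #E ≤ 2 ^ r * ∑ u ∈ N v, #(F.filter fun φ => 2 * #(Av N L φ u) ≤ r) :=
          Nat.mul_le_mul_left _ ((card_le_card h1).trans card_biUnion_le)
      _ = ∑ u ∈ N v, 2 ^ r * #(F.filter fun φ => 2 * #(Av N L φ u) ≤ r) := mul_sum _ _ _
      _ ≤ ∑ _u ∈ N v, (r + 1) * #F := by
          apply sum_le_sum
          intro u hu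
          exact av_tail hF u (hB2 u hu) (hL u) r (hr8.trans (hLu u hu))
      _ = d * (r + 1) * #F := by rw [sum_const, smul_eq_mul, ← hd, mul_assoc]
  -- the level sets
  have hTX : ∀ i, #(F.filter fun φ => #(((N v).image φ).erase none) = i) ≤
      #(F.filter fun φ => (∀ u ∈ N v, m ≤ #(Av N L φ u)) ∧
        #(((N v).image φ).erase none) = i) + #E := by
    intro i
    refine le_trans (card_le_card ?_) (card_union_le _ _)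
    intro φ hφ
    rw [mem_filter] at hφ
    rw [mem_union]
    by_cases h1 : ∀ u ∈ N v, m ≤ #(Av N L φ u)
    · left
      exact mem_filter.2 ⟨hφ.1, h1, hφ.2⟩
    · right
      push Not at h1
      obtain ⟨u, hu, h2⟩ := h1
      rw [hE, mem_filter]
      exact ⟨hφ.1, u, hu, by omega⟩
  have hstepN := fun i => small_step hG hF v hB1 m i
  rw [← hd] at hstepN
  set Xc : ℕ → ℝ := fun i => (#(F.filter fun φ => (∀ u ∈ N v, m ≤ #(Av N L φ u)) ∧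
        #(((N v).image φ).erase none) = i) : ℝ) with hXc
  have hXcv : ∀ i, Xc i = (#(F.filter fun φ => (∀ u ∈ N v, m ≤ #(Av N L φ u)) ∧
        #(((N v).image φ).erase none) = i) : ℝ) := fun i => rfl
  have hmd : (0 : ℝ) < ((m - d : ℕ) : ℝ) := by
    have : 0 < m - d := by omega
    exact_mod_cast this
  have hF0 : (0 : ℝ) ≤ (#F : ℝ) := Nat.cast_nonneg _
  have hE0 : (0 : ℝ) ≤ (#E : ℝ) := Nat.cast_nonneg _
  have hrec := rec_bound Xc d (#E : ℝ) (#F : ℝ) X hE0 hX0 hX12 (by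
    rw [hXcv]
    exact_mod_cast card_le_card (filter_subset _ _)) (by
    intro j hj
    have h1 := hstepN (d - (j + 1))
    have h2 := hTX (d - (j + 1) + 1)
    have h3 : d - (d - (j + 1)) = j + 1 := by omega
    have h4 : d - (j + 1) + 1 = d - j := by omega
    rw [h3, h4] at h1
    rw [h4] at h2
    have h5 : Xc (d - (j + 1)) * (((j : ℝ) + 1) * ((m - d : ℕ) : ℝ)) ≤
        (Xc (d - j) + (#E : ℝ)) * ((d : ℝ) * (d + 1)) := by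
      have h6 : #(F.filter fun φ => (∀ u ∈ N v, m ≤ #(Av N L φ u)) ∧
          #(((N v).image φ).erase none) = d - (j + 1)) * ((j + 1) * (m - d)) ≤
          (#(F.filter fun φ => (∀ u ∈ N v, m ≤ #(Av N L φ u)) ∧
          #(((N v).image φ).erase none) = d - j) + #E) * (d * (d + 1)) :=
        h1.trans (Nat.mul_le_mul_right _ h2)
      rw [hXcv, hXcv]
      exact_mod_cast h6
    have hXnn : 0 ≤ Xc (d - (j + 1)) := Nat.cast_nonneg _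
    have hXnn2 : 0 ≤ Xc (d - j) := Nat.cast_nonneg _
    have h7 : Xc (d - (j + 1)) * ((m - d : ℕ) : ℝ) ≤
        (Xc (d - j) + (#E : ℝ)) * X * ((m - d : ℕ) : ℝ) := by
      calc Xc (d - (j + 1)) * ((m - d : ℕ) : ℝ)
          ≤ Xc (d - (j + 1)) * (((j : ℝ) + 1) * ((m - d : ℕ) : ℝ)) := by
            apply mul_le_mul_of_nonneg_left _ hXnn
            have hj0 : (0 : ℝ) ≤ (j : ℝ) := Nat.cast_nonneg _
            nlinarith [mul_nonneg hj0 hmd.le]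
        _ ≤ (Xc (d - j) + (#E : ℝ)) * ((d : ℝ) * (d + 1)) := h5
        _ ≤ (Xc (d - j) + (#E : ℝ)) * (X * ((m - d : ℕ) : ℝ)) :=
            mul_le_mul_of_nonneg_left hXd (by linarith)
        _ = (Xc (d - j) + (#E : ℝ)) * X * ((m - d : ℕ) : ℝ) := by ring
    exact le_of_mul_le_mul_right h7 hmd)
  -- the bad set
  set I := (range (d + 1)).filter (fun i => 2 * i ≤ d) with hI
  have hbad : (#(F.filter fun φ => #(Uq N φ v) ≤ #(Bl N φ v)) : ℝ) ≤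
      (#E : ℝ) + ∑ i ∈ I, Xc i := by
    have h1 : (F.filter fun φ => #(Uq N φ v) ≤ #(Bl N φ v)) ⊆ E ∪ I.biUnion (fun i =>
        F.filter fun φ => (∀ u ∈ N v, m ≤ #(Av N L φ u)) ∧
        #(((N v).image φ).erase none) = i) := by
      intro φ hφ
      rw [mem_filter] at hφ
      rw [mem_union]
      by_cases h1 : ∀ u ∈ N v, m ≤ #(Av N L φ u)
      · right
        rw [mem_biUnion]
        have h2 := col_card N φ v
        rw [← hd] at h2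
        have h3 := hφ.2
        refine ⟨#(((N v).image φ).erase none), ?_, mem_filter.2 ⟨hφ.1, h1, rfl⟩⟩
        rw [hI, mem_filter, mem_range]
        omega
      · left
        push Not at h1
        obtain ⟨u, hu, h2⟩ := h1
        rw [hE, mem_filter]
        exact ⟨hφ.1, u, hu, by omega⟩
    have h2 : #(F.filter fun φ => #(Uq N φ v) ≤ #(Bl N φ v)) ≤ #E + ∑ i ∈ I,
        #(F.filter fun φ => (∀ u ∈ N v, m ≤ #(Av N L φ u)) ∧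
        #(((N v).image φ).erase none) = i) :=
      (card_le_card h1).trans ((card_union_le _ _).trans (Nat.add_le_add_left card_biUnion_le _))
    simp only [hXcv]
    exact_mod_cast h2
  have hIcard : (#I : ℝ) ≤ (d : ℝ) + 1 := by
    have : #I ≤ d + 1 := by
      rw [hI]
      exact (card_filter_le _ _).trans (by rw [card_range])
    exact_mod_cast this
  have hd1 : (0 : ℝ) < (d : ℝ) + 1 := by positivity
  have hXi : ∀ i ∈ I, 32 * (Δ : ℝ) ^ 4 * Xc i ≤ (#F : ℝ) / (d + 1) +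
      32 * (Δ : ℝ) ^ 4 * (#E : ℝ) := by
    intro i hi
    rw [hI, mem_filter, mem_range] at hi
    have h1 := hrec (d - i) (by omega)
    rw [show d - (d - i) = i by omega] at h1
    have h2 := hXj (d - i) (by omega)
    have h3 : 32 * (Δ : ℝ) ^ 4 * Xc i ≤ 32 * (Δ : ℝ) ^ 4 * (X ^ (d - i) * (#F : ℝ) + (#E : ℝ)) :=
      mul_le_mul_of_nonneg_left h1 (by positivity)
    have h4 : 32 * (Δ : ℝ) ^ 4 * (X ^ (d - i) * (#F : ℝ)) ≤ (#F : ℝ) / (d + 1) := by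
      rw [le_div_iff₀ hd1]
      calc 32 * (Δ : ℝ) ^ 4 * (X ^ (d - i) * (#F : ℝ)) * (d + 1)
          = 32 * (Δ : ℝ) ^ 4 * (((d : ℝ) + 1) * X ^ (d - i)) * (#F : ℝ) := by ring
        _ ≤ 1 * (#F : ℝ) := mul_le_mul_of_nonneg_right h2 hF0
        _ = (#F : ℝ) := one_mul _
    linarith [mul_add (32 * (Δ : ℝ) ^ 4) (X ^ (d - i) * (#F : ℝ)) (#E : ℝ)]
  have hsum : 32 * (Δ : ℝ) ^ 4 * ∑ i ∈ I, Xc i ≤ (#F : ℝ) +
      ((d : ℝ) + 1) * (32 * (Δ : ℝ) ^ 4 * (#E : ℝ)) := by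
    rw [mul_sum]
    calc ∑ i ∈ I, 32 * (Δ : ℝ) ^ 4 * Xc i ≤ ∑ _i ∈ I, ((#F : ℝ) / (d + 1) +
          32 * (Δ : ℝ) ^ 4 * (#E : ℝ)) := sum_le_sum hXi
      _ = (#I : ℝ) * ((#F : ℝ) / (d + 1) + 32 * (Δ : ℝ) ^ 4 * (#E : ℝ)) := by
          rw [sum_const, nsmul_eq_mul]
      _ ≤ ((d : ℝ) + 1) * ((#F : ℝ) / (d + 1) + 32 * (Δ : ℝ) ^ 4 * (#E : ℝ)) :=
          mul_le_mul_of_nonneg_right hIcard (by positivity)
      _ = (#F : ℝ) + ((d : ℝ) + 1) * (32 * (Δ : ℝ) ^ 4 * (#E : ℝ)) := by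
          rw [mul_add, mul_div_cancel₀ _ hd1.ne']
  have hEF : 32 * (Δ : ℝ) ^ 4 * ((d + 2) * (#E : ℝ)) ≤ (#F : ℝ) := by
    have h1 : (2 : ℝ) ^ r * (#E : ℝ) ≤ (d : ℝ) * ((r : ℝ) + 1) * (#F : ℝ) := by exact_mod_cast hEc
    have h2 : (0 : ℝ) < 2 ^ r := by positivity
    refine le_of_mul_le_mul_left ?_ h2
    calc (2 : ℝ) ^ r * (32 * (Δ : ℝ) ^ 4 * ((d + 2) * (#E : ℝ)))
        = 32 * (Δ : ℝ) ^ 4 * (d + 2) * ((2 : ℝ) ^ r * (#E : ℝ)) := by ring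
      _ ≤ 32 * (Δ : ℝ) ^ 4 * (d + 2) * ((d : ℝ) * ((r : ℝ) + 1) * (#F : ℝ)) :=
          mul_le_mul_of_nonneg_left h1 (by positivity)
      _ = 32 * (Δ : ℝ) ^ 4 * ((d + 2) * (d * (r + 1))) * (#F : ℝ) := by ring
      _ ≤ 2 ^ r * (#F : ℝ) := mul_le_mul_of_nonneg_right hexp hF0
  have hfin : (#(F.filter fun φ => #(Uq N φ v) ≤ #(Bl N φ v)) : ℝ) * (16 * (Δ : ℝ) ^ 4) ≤
      (#F : ℝ) := by
    have h1 : 32 * (Δ : ℝ) ^ 4 * (#(F.filter fun φ => #(Uq N φ v) ≤ #(Bl N φ v)) : ℝ) ≤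
        32 * (Δ : ℝ) ^ 4 * ((#E : ℝ) + ∑ i ∈ I, Xc i) :=
      mul_le_mul_of_nonneg_left hbad (by positivity)
    have h2 : 32 * (Δ : ℝ) ^ 4 * ((#E : ℝ) + ∑ i ∈ I, Xc i) =
        32 * (Δ : ℝ) ^ 4 * (#E : ℝ) + 32 * (Δ : ℝ) ^ 4 * ∑ i ∈ I, Xc i := mul_add _ _ _
    have h3 : 32 * (Δ : ℝ) ^ 4 * ((d + 2) * (#E : ℝ)) =
        32 * (Δ : ℝ) ^ 4 * (#E : ℝ) + ((d : ℝ) + 1) * (32 * (Δ : ℝ) ^ 4 * (#E : ℝ)) := by ring
    linarith
  exact_mod_cast hfin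

end Pool.Agent.Helper4.PC
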